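import Mathlib

set_option autoImplicit false

open MvPolynomial

namespace Pool.Agent.H4R3.BN

variable {K : Type*} [Field K]

/-- homogeneous ideal of the point with homogeneous coordinates `q` -/
noncomputable def vI (q : Fin 3 → K) : Ideal (MvPolynomial (Fin 3) K) :=
  Ideal.span (Set.range fun ij : Fin 3 × Fin 3 => C (q ij.1) * X ij.2 - C (q ij.2) * X ij.1)

lemma vI_smul_le {c : K} (q : Fin 3 → K) : vI (c • q) ≤ vI q := by
  rw [vI, Ideal.span_le]
  rintro _ ⟨⟨i, j⟩, rfl⟩
  rw [SetLike.mem_coe]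
  have : (C ((c • q) i) * X j - C ((c • q) j) * X i : MvPolynomial (Fin 3) K)
      = C c * (C (q i) * X j - C (q j) * X i) := by
    simp only [Pi.smul_apply, smul_eq_mul, map_mul]
    ring
  simp only [this]
  exact Ideal.mul_mem_left _ _ (Ideal.subset_span ⟨(i, j), rfl⟩)

lemma vI_smul {c : K} (hc : c ≠ 0) (q : Fin 3 → K) : vI (c • q) = vI q := by
  apply le_antisymm (vI_smul_le q)
  conv_lhs => rw [show q = c⁻¹ • (c • q) by rw [smul_smul, inv_mul_cancel₀ hc, one_smul]]
  exact vI_smul_le _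

lemma lin0_mem (q : Fin 3 → K) (h : q 2 = 1) : X 0 - C (q 0) * X 2 ∈ vI q := by
  have : (X 0 - C (q 0) * X 2 : MvPolynomial (Fin 3) K) =
      (fun ij : Fin 3 × Fin 3 => C (q ij.1) * X ij.2 - C (q ij.2) * X ij.1) (2, 0) := by
    simp [h]
  rw [this]
  exact Ideal.subset_span ⟨_, rfl⟩

lemma lin1_mem (q : Fin 3 → K) (h : q 2 = 1) : X 1 - C (q 1) * X 2 ∈ vI q := by
  have : (X 1 - C (q 1) * X 2 : MvPolynomial (Fin 3) K) =
      (fun ij : Fin 3 × Fin 3 => C (q ij.1) * X ij.2 - C (q ij.2) * X ij.1) (2, 1) := by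
    simp [h]
  rw [this]
  exact Ideal.subset_span ⟨_, rfl⟩

/-- translation moving `(u, v, 1)` to `(0, 0, 1)` -/
noncomputable def trans (u v : K) : MvPolynomial (Fin 3) K →ₐ[K] MvPolynomial (Fin 3) K :=
  aeval ![X 0 + C u * X 2, X 1 + C v * X 2, X 2]

lemma trans_neg (u v : K) (F : MvPolynomial (Fin 3) K) : trans (-u) (-v) (trans u v F) = F := by
  have : (trans (-u) (-v)).comp (trans u v) = AlgHom.id K (MvPolynomial (Fin 3) K) := by
    apply MvPolynomial.algHom_ext
    intro i
    fin_cases i <;> simp [trans]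
  exact DFunLike.congr_fun this F

lemma trans_hom (u v : K) {F : MvPolynomial (Fin 3) K} {n : ℕ} (hF : F.IsHomogeneous n) :
    (trans u v F).IsHomogeneous n := by
  have := hF.aeval (n := 1) ![X 0 + C u * X 2, X 1 + C v * X 2, (X 2 : MvPolynomial (Fin 3) K)] ?_
  · rw [one_mul] at this
    exact this
  · intro i
    fin_cases i
    · exact (isHomogeneous_X _ _).add (isHomogeneous_C_mul_X _ _)
    · exact (isHomogeneous_X _ _).add (isHomogeneous_C_mul_X _ _)
    · exact isHomogeneous_X _ _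

/-- a polynomial whose translate only has monomials with `s 0 + s 1 ≥ a` is in `I ^ a` -/
lemma mem_pow_of_support (u v : K) {F : MvPolynomial (Fin 3) K} {a : ℕ}
    (h : ∀ s : Fin 3 →₀ ℕ, s 0 + s 1 < a → coeff s (trans u v F) = 0) :
    F ∈ vI ![u, v, 1] ^ a := by
  classical
  rw [← trans_neg u v F, (trans u v F).as_sum, map_sum]
  apply Ideal.sum_mem
  intro s hs
  have hge : a ≤ s 0 + s 1 := by
    by_contra hlt
    push Not at hlt
    exact (mem_support_iff.1 hs) (h s hlt)
  have h0 := lin0_mem ![u, v, 1] (by simp)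
  have h1 := lin1_mem ![u, v, 1] (by simp)
  simp only [Matrix.cons_val_zero, Matrix.cons_val_one] at h0 h1
  rw [trans, aeval_monomial, Finsupp.prod_fintype _ _ (by simp)]
  simp only [Fin.prod_univ_three, Matrix.cons_val_zero, Matrix.cons_val_one, Matrix.cons_val]
  apply Ideal.mul_mem_left
  apply Ideal.mul_mem_right
  apply Ideal.pow_le_pow_right hge
  rw [pow_add]
  apply Ideal.mul_mem_mul
  · apply Ideal.pow_mem_pow
    convert h0 using 1
    simp [sub_eq_add_neg]
  · apply Ideal.pow_mem_pow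
    convert h1 using 1
    simp [sub_eq_add_neg]

/-- exponent vector -/
noncomputable def ex (a b c : ℕ) : Fin 3 →₀ ℕ :=
  Finsupp.single 0 a + Finsupp.single 1 b + Finsupp.single 2 c

lemma ex_apply (a b c : ℕ) : (ex a b c) 0 = a ∧ (ex a b c) 1 = b ∧ (ex a b c) 2 = c := by
  simp [ex]

lemma hom_deg {F : MvPolynomial (Fin 3) K} {n : ℕ} (hF : F.IsHomogeneous n) {s : Fin 3 →₀ ℕ}
    (hs : coeff s F ≠ 0) : s 0 + s 1 + s 2 = n := by
  have := hF hs
  rw [Finsupp.weight_apply, Finsupp.sum_fintype _ _ (by simp)] at this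
  simp [Fin.sum_univ_three] at this
  exact this

lemma mem_pow_of_coeff (u v : K) {F : MvPolynomial (Fin 3) K} {n a : ℕ} (hF : F.IsHomogeneous n)
    (h : ∀ i j : ℕ, j ≤ i → i < a → coeff (ex j (i - j) (n - i)) (trans u v F) = 0) :
    F ∈ vI ![u, v, 1] ^ a := by
  classical
  have hT := trans_hom u v hF
  apply mem_pow_of_support
  intro s hlt
  by_contra hs
  have hdeg := hom_deg hT hs
  have := h (s 0 + s 1) (s 0) (by omega) hlt
  have hs' : ex (s 0) (s 0 + s 1 - s 0) (n - (s 0 + s 1)) = s := by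
    ext i
    have := ex_apply (s 0) (s 0 + s 1 - s 0) (n - (s 0 + s 1))
    fin_cases i
    · exact this.1
    · exact this.2.1.trans (by simp)
    · exact this.2.2.trans (by simp; omega)
  rw [hs'] at this
  exact hs this

/-- index set of size `a(a+1)/2` -/
abbrev Idx (a : ℕ) : Type := Σ i : Fin a, Fin (i.val + 1)

lemma card_idx (a : ℕ) : Fintype.card (Idx a) = (a + 1).choose 2 := by
  rw [Fintype.card_sigma]
  simp only [Fintype.card_fin]
  rw [Fin.sum_univ_eq_sum_range (fun i => i + 1) a]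
  induction a with
  | zero => simp
  | succ n ih => rw [Finset.sum_range_succ, ih, Nat.choose_succ_succ (n + 1) 1]; simp; omega

instance finite_hom (n : ℕ) : Module.Finite K (homogeneousSubmodule (Fin 3) K n) :=
  Module.Finite.iff_fg.2 (homogeneousSubmodule_fg (Fin 3) K n)

lemma finrank_hom_ge (n : ℕ) :
    (n + 2).choose 2 ≤ Module.finrank K (homogeneousSubmodule (Fin 3) K n) := by
  classical
  rw [← card_idx (n + 1)]
  let g : Idx (n + 1) → (Fin 3 →₀ ℕ) := fun x => ex x.2.val (x.1.val - x.2.val) (n - x.1.val)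
  have hg : Function.Injective g := by
    rintro ⟨i, j⟩ ⟨i', j'⟩ h
    have e := ex_apply j.val (i.val - j.val) (n - i.val)
    have e' := ex_apply j'.val (i'.val - j'.val) (n - i'.val)
    have h' : ex j.val (i.val - j.val) (n - i.val) = ex j'.val (i'.val - j'.val) (n - i'.val) := h
    rw [h'] at e
    obtain ⟨e1, e2, e3⟩ := e
    obtain ⟨e1', e2', e3'⟩ := e'
    have hi := i.2
    have hi' := i'.2
    have hj := j.2
    have hj' := j'.2
    have : i = i' := by
      apply Fin.ext; omega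
    subst this
    have : j = j' := by
      apply Fin.ext; omega
    subst this
    rfl
  have hmem : ∀ x : Idx (n + 1), (monomial (g x) (1 : K)) ∈ homogeneousSubmodule (Fin 3) K n := by
    intro x
    apply isHomogeneous_monomial
    have hi := x.1.2
    have hj := x.2.2
    simp only [g, ex, map_add, Finsupp.degree_single]
    omega
  have hli : LinearIndependent K
      (fun x : Idx (n + 1) => (⟨monomial (g x) (1 : K), hmem x⟩ :
        homogeneousSubmodule (Fin 3) K n)) := by
    apply LinearIndependent.of_comp (homogeneousSubmodule (Fin 3) K n).subtype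
    have := (basisMonomials (Fin 3) K).linearIndependent.comp g hg
    convert this using 1
    ext1 x
    simp
  exact hli.fintype_card_le_finrank

/-- existence of forms with prescribed multiplicities, by counting conditions -/
lemma exists_form {r : ℕ} (u v : Fin r → K) (n : ℕ) (a : Fin r → ℕ)
    (hlt : ∑ i, (a i + 1).choose 2 < (n + 2).choose 2) :
    ∃ F : MvPolynomial (Fin 3) K, F ≠ 0 ∧ F.IsHomogeneous n ∧
      ∀ i, F ∈ vI ![u i, v i, 1] ^ a i := by
  classical
  let f : homogeneousSubmodule (Fin 3) K n →ₗ[K] ((Σ i, Idx (a i)) → K) :=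
    LinearMap.pi fun x =>
      (lcoeff K (ex x.2.2.val (x.2.1.val - x.2.2.val) (n - x.2.1.val))).comp
        ((trans (u x.1) (v x.1)).toLinearMap.comp (homogeneousSubmodule (Fin 3) K n).subtype)
  have h2 : Module.finrank K ((Σ i, Idx (a i)) → K) = ∑ i, (a i + 1).choose 2 := by
    rw [Module.finrank_fintype_fun_eq_card, Fintype.card_sigma]
    simp only [card_idx]
  have h4 := finrank_hom_ge (K := K) n
  obtain ⟨F, hF0, hF⟩ : ∃ F : homogeneousSubmodule (Fin 3) K n, F ≠ 0 ∧ f F = 0 := by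
    have h5 : LinearMap.ker f ≠ ⊥ := f.ker_ne_bot_of_finrank_lt (by rw [h2]; omega)
    obtain ⟨F, h6, h7⟩ := (Submodule.ne_bot_iff _).1 h5
    exact ⟨F, h7, LinearMap.mem_ker.1 h6⟩
  refine ⟨F.1, fun h => hF0 (Subtype.ext h), F.2, fun i => ?_⟩
  apply mem_pow_of_coeff (u i) (v i) (n := n) F.2
  intro b c hcb hba
  have := congrFun hF ⟨i, ⟨⟨b, hba⟩, ⟨c, by simpa using Nat.lt_succ_of_le hcb⟩⟩⟩
  simpa [f, lcoeff] using this

end Pool.Agent.H4R3.BN
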