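import Mathlib
import Pool.Agent.H4R3.BNa

set_option autoImplicit false

open MvPolynomial

namespace Pool.Agent.H4R3.BN

variable {K : Type*} [Field K]

/-- the homomorphism measuring the order at `(u, v, 1)` -/
noncomputable def psi (u v : K) : MvPolynomial (Fin 3) K →ₐ[K] Polynomial (MvPolynomial (Fin 3) K) :=
  aeval ![Polynomial.C (C u * X 2) + Polynomial.X * Polynomial.C (X 0),
    Polynomial.C (C v * X 2) + Polynomial.X * Polynomial.C (X 1), Polynomial.C (X 2)]

/-- the scaling homomorphism in the first two variables -/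
noncomputable def sca : MvPolynomial (Fin 3) K →ₐ[K] Polynomial (MvPolynomial (Fin 3) K) :=
  aeval ![Polynomial.X * Polynomial.C (X 0), Polynomial.X * Polynomial.C (X 1), Polynomial.C (X 2)]

lemma psi_eq (u v : K) (F : MvPolynomial (Fin 3) K) : psi u v F = sca (trans u v F) := by
  have : (psi u v) = (sca (K := K)).comp (trans u v) := by
    apply MvPolynomial.algHom_ext
    intro i
    have hC : ∀ c : K, (sca (K := K)) (C c) = Polynomial.C (C c) := by
      intro c
      rw [← MvPolynomial.algebraMap_eq, AlgHom.commutes]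
      rfl
    fin_cases i
    · simp [trans, psi, sca]
      ring_nf
    · simp [trans, psi, sca]
      ring_nf
    · simp [trans, psi, sca]
  rw [this]; rfl

lemma sca_monomial (s : Fin 3 →₀ ℕ) (c : K) :
    sca (monomial s c) = Polynomial.C (monomial s c) * Polynomial.X ^ (s 0 + s 1) := by
  rw [sca, aeval_monomial, Finsupp.prod_fintype _ _ (by simp), monomial_eq,
    Finsupp.prod_fintype _ _ (by simp)]
  simp [Fin.prod_univ_three]
  rw [show (Polynomial.C (C c) : Polynomial (MvPolynomial (Fin 3) K)) = 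
        algebraMap K (Polynomial (MvPolynomial (Fin 3) K)) c from rfl]
  ring

lemma coeff_coeff_sca (F : MvPolynomial (Fin 3) K) (m : ℕ) (s : Fin 3 →₀ ℕ) :
    coeff s ((sca F).coeff m) = if s 0 + s 1 = m then coeff s F else 0 := by
  classical
  induction F using MvPolynomial.induction_on' with
  | monomial t c =>
    rw [sca_monomial, Polynomial.coeff_C_mul_X_pow]
    by_cases hst : t = s
    · subst hst
      by_cases h : t 0 + t 1 = m
      · rw [if_pos h.symm, if_pos h]
      · rw [if_neg (fun h' => h h'.symm), if_neg h, coeff_zero]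
    · split_ifs <;> simp [coeff_monomial, hst]
  | add p q hp hq =>
    rw [map_add, Polynomial.coeff_add, coeff_add, hp, hq, coeff_add]
    split_ifs <;> simp

lemma sca_ne_zero {F : MvPolynomial (Fin 3) K} (hF : F ≠ 0) : sca F ≠ 0 := by
  intro h
  apply hF
  ext s
  have := coeff_coeff_sca F (s 0 + s 1) s
  rw [h, Polynomial.coeff_zero, coeff_zero, if_pos rfl] at this
  rw [← this, coeff_zero]

lemma trans_ne_zero (u v : K) {F : MvPolynomial (Fin 3) K} (hF : F ≠ 0) : trans u v F ≠ 0 := by
  intro h
  apply hF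
  rw [← trans_neg u v F, h, map_zero]

lemma psi_ne_zero (u v : K) {F : MvPolynomial (Fin 3) K} (hF : F ≠ 0) : psi u v F ≠ 0 := by
  rw [psi_eq]
  exact sca_ne_zero (trans_ne_zero u v hF)

/-- the order of `F` at `(u, v, 1)` -/
noncomputable def od (u v : K) (F : MvPolynomial (Fin 3) K) : ℕ := (psi u v F).natTrailingDegree

lemma od_mul (u v : K) {F G : MvPolynomial (Fin 3) K} (hF : F ≠ 0) (hG : G ≠ 0) :
    od u v (F * G) = od u v F + od u v G := by
  unfold od
  rw [map_mul, Polynomial.natTrailingDegree_mul (psi_ne_zero u v hF) (psi_ne_zero u v hG)]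

lemma od_pow (u v : K) {F : MvPolynomial (Fin 3) K} (hF : F ≠ 0) (n : ℕ) :
    od u v (F ^ n) = n * od u v F := by
  induction n with
  | zero => simp [od]
  | succ n ih => rw [pow_succ, od_mul u v (pow_ne_zero n hF) hF, ih]; ring

lemma psi_mem (u v : K) {F : MvPolynomial (Fin 3) K} {c : ℕ} (hF : F ∈ vI ![u, v, 1] ^ c) :
    (Polynomial.X : Polynomial (MvPolynomial (Fin 3) K)) ^ c ∣ psi u v F := by
  have h1 : Ideal.map (psi u v) (vI ![u, v, 1]) ≤
      Ideal.span {(Polynomial.X : Polynomial (MvPolynomial (Fin 3) K))} := by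
    rw [vI, Ideal.map_span, Ideal.span_le]
    rintro _ ⟨_, ⟨⟨i, j⟩, rfl⟩, rfl⟩
    rw [SetLike.mem_coe, Ideal.mem_span_singleton, Polynomial.X_dvd_iff]
    fin_cases i <;> fin_cases j <;> simp [psi] <;> ring
  have h2 := Ideal.mem_map_of_mem (psi u v) hF
  rw [Ideal.map_pow] at h2
  have h3 := Ideal.pow_right_mono h1 c h2
  rwa [Ideal.span_singleton_pow, Ideal.mem_span_singleton] at h3

lemma le_od_iff (u v : K) {F : MvPolynomial (Fin 3) K} (hF : F ≠ 0) (c : ℕ) :
    F ∈ vI ![u, v, 1] ^ c ↔ c ≤ od u v F := by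
  constructor
  · intro h
    have h1 := psi_mem u v h
    unfold od
    rw [Polynomial.X_pow_dvd_iff] at h1
    exact Polynomial.le_natTrailingDegree (psi_ne_zero u v hF) h1
  · intro h
    apply mem_pow_of_support
    intro s hs
    have h1 : (psi u v F).coeff (s 0 + s 1) = 0 :=
      Polynomial.coeff_eq_zero_of_lt_natTrailingDegree (lt_of_lt_of_le hs h)
    rw [psi_eq] at h1
    have h2 := coeff_coeff_sca (trans u v F) (s 0 + s 1) s
    rw [h1, if_pos rfl, coeff_zero] at h2
    exact h2.symm

end Pool.Agent.H4R3.BN
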