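import Mathlib
import Pool.Agent.H4R3.BNb

set_option autoImplicit false

open MvPolynomial

namespace Pool.Agent.H4R3.BN

variable {K : Type*} [Field K]

/-- The cuspidal cubic `x₀³ = x₁x₂²`. -/
noncomputable def Cu : MvPolynomial (Fin 3) K := X 0 ^ 3 - X 1 * X 2 ^ 2

/-- parametrisation (homogeneous version) -/
noncomputable def phi : MvPolynomial (Fin 3) K →ₐ[K] MvPolynomial (Fin 2) K :=
  aeval ![X 0 * X 1, X 0 ^ 3 * X 1, X 1]

/-- parametrisation (affine version) -/
noncomputable def par : MvPolynomial (Fin 3) K →ₐ[K] Polynomial K :=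
  aeval ![Polynomial.X, Polynomial.X ^ 3, 1]

lemma phi_Cu : phi (Cu : MvPolynomial (Fin 3) K) = 0 := by
  simp [phi, Cu]
  ring

lemma phi_monomial (s : Fin 3 →₀ ℕ) (c : K) :
    phi (monomial s c) =
      monomial (Finsupp.single 0 (s 0 + 3 * s 1) + Finsupp.single 1 (s 0 + s 1 + s 2)) c := by
  rw [phi, aeval_monomial, Finsupp.prod_fintype _ _ (by simp)]
  rw [monomial_eq, Finsupp.prod_fintype _ _ (by simp)]
  simp [Fin.prod_univ_three, Fin.prod_univ_two]
  left
  ring

/-- Every polynomial is congruent modulo `Cu` to one with all exponents of `x₀` less than 3. -/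
lemma exists_normal (G : MvPolynomial (Fin 3) K) :
    ∃ N : MvPolynomial (Fin 3) K, (∀ s ∈ N.support, s 0 < 3) ∧ Cu ∣ G - N := by
  induction G using MvPolynomial.induction_on' with
  | monomial s c =>
    obtain ⟨n, hn⟩ : ∃ n, s 0 = n := ⟨_, rfl⟩
    induction n using Nat.strong_induction_on generalizing s c with
    | _ n ih =>
      by_cases h4 : n < 3
      · refine ⟨monomial s c, ?_, by simp⟩
        intro t ht
        have := support_monomial_subset ht
        rw [Finset.mem_singleton] at this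
        subst this; omega
      · push Not at h4
        set s' : Fin 3 →₀ ℕ := s - Finsupp.single 0 3 with hs'
        have hle : Finsupp.single 0 3 ≤ s := by
          rw [Finsupp.single_le_iff]; omega
        have hs : s = s' + Finsupp.single 0 3 := by
          rw [hs', tsub_add_cancel_of_le hle]
        set s'' : Fin 3 →₀ ℕ := s' + (Finsupp.single 1 1 + Finsupp.single 2 2) with hs''
        have h0 : s'' 0 = n - 3 := by
          simp [hs'', hs', hn]
        obtain ⟨N, hN, hd⟩ := ih (n - 3) (by omega) s'' c h0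
        refine ⟨N, hN, ?_⟩
        have : (monomial s c : MvPolynomial (Fin 3) K) - N
            = monomial s' c * Cu + (monomial s'' c - N) := by
          have e1 : (monomial s c : MvPolynomial (Fin 3) K) = monomial s' c * X 0 ^ 3 := by
            rw [hs, X_pow_eq_monomial, monomial_mul, mul_one]
          have e2 : (monomial s'' c : MvPolynomial (Fin 3) K)
              = monomial s' c * (X 1 * X 2 ^ 2) := by
            rw [hs'', X_pow_eq_monomial, X, monomial_mul, monomial_mul, mul_one, mul_one]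
          rw [e1, e2, Cu]; ring
        rw [this]
        exact dvd_add (dvd_mul_left _ _) hd
  | add p q hp hq =>
    obtain ⟨N, hN, hd⟩ := hp
    obtain ⟨N', hN', hd'⟩ := hq
    refine ⟨N + N', ?_, ?_⟩
    · intro s hs
      have := support_add hs
      rcases Finset.mem_union.1 this with h | h
      · exact hN s h
      · exact hN' s h
    · have : p + q - (N + N') = (p - N) + (q - N') := by ring
      rw [this]; exact dvd_add hd hd'

lemma phi_injOn (N : MvPolynomial (Fin 3) K) (hN : ∀ s ∈ N.support, s 0 < 3)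
    (h : phi N = 0) : N = 0 := by
  classical
  ext s
  by_cases hs : s ∈ N.support
  · have h1 : phi N = ∑ t ∈ N.support, phi (monomial t (coeff t N)) := by
      conv_lhs => rw [N.as_sum]
      rw [map_sum]
    rw [h] at h1
    have h2 := congrArg
      (coeff (Finsupp.single 0 (s 0 + 3 * s 1) + Finsupp.single 1 (s 0 + s 1 + s 2))) h1
    rw [coeff_zero, coeff_sum, Finset.sum_eq_single s] at h2
    · rw [phi_monomial, coeff_monomial, if_pos rfl] at h2
      rw [← h2, coeff_zero]
    · intro t ht hts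
      rw [phi_monomial, coeff_monomial, if_neg]
      intro heq
      apply hts
      have e0 := DFunLike.congr_fun heq 0
      have e1 := DFunLike.congr_fun heq 1
      simp at e0 e1
      have b1 := hN t ht
      have b2 := hN s hs
      ext i
      fin_cases i <;> simp <;> omega
    · intro h'; exact absurd hs h'
  · rw [notMem_support_iff.1 hs, coeff_zero]

lemma Cu_dvd_of_phi (G : MvPolynomial (Fin 3) K) (h : phi G = 0) : Cu ∣ G := by
  obtain ⟨N, hN, hd⟩ := exists_normal G
  have : phi N = 0 := by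
    obtain ⟨A, hA⟩ := hd
    have : phi (G - N) = 0 := by rw [hA, map_mul, phi_Cu, zero_mul]
    rw [map_sub, h, zero_sub, neg_eq_zero] at this
    exact this
  rw [phi_injOn N hN this, sub_zero] at hd
  exact hd

lemma Cu_ne_zero : (Cu : MvPolynomial (Fin 3) K) ≠ 0 := by
  intro h
  have := congrArg (eval ![1, 0, 0]) h
  simp [Cu] at this

lemma Cu_hom : (Cu : MvPolynomial (Fin 3) K).IsHomogeneous 3 := by
  unfold Cu
  apply IsHomogeneous.sub
  · exact isHomogeneous_X_pow _ _
  · exact (isHomogeneous_X _ _).mul (isHomogeneous_X_pow _ _)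

lemma Cu_not_unit : ¬ IsUnit (Cu : MvPolynomial (Fin 3) K) := by
  intro hu
  have := hu.map phi
  rw [phi_Cu] at this
  exact not_isUnit_zero this

lemma phi_eq_of_hom {G : MvPolynomial (Fin 3) K} {n : ℕ} (hG : G.IsHomogeneous n) :
    phi G = X 1 ^ n * Polynomial.aeval (X 0 : MvPolynomial (Fin 2) K) (par G) := by
  classical
  conv_lhs => rw [G.as_sum]
  conv_rhs => rw [G.as_sum]
  rw [map_sum, map_sum, map_sum, Finset.mul_sum]
  apply Finset.sum_congr rfl
  intro s hs
  have hdeg := hom_deg hG (mem_support_iff.1 hs)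
  rw [phi, par, aeval_monomial, aeval_monomial, Finsupp.prod_fintype _ _ (by simp),
    Finsupp.prod_fintype _ _ (by simp)]
  simp [Fin.prod_univ_three]
  rw [← hdeg]
  ring

lemma Cu_dvd_of_par {G : MvPolynomial (Fin 3) K} {n : ℕ} (hG : G.IsHomogeneous n)
    (h : par G = 0) : Cu ∣ G := by
  apply Cu_dvd_of_phi
  rw [phi_eq_of_hom hG, h, map_zero, mul_zero]

lemma par_coeff {G : MvPolynomial (Fin 3) K} {n : ℕ} (hG : G.IsHomogeneous n) (m : ℕ)
    (hm : ∀ a b : ℕ, a + b ≤ n → a + 3 * b ≠ m) : (par G).coeff m = 0 := by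
  classical
  rw [G.as_sum, map_sum, Polynomial.finsetSum_coeff]
  apply Finset.sum_eq_zero
  intro s hs
  have hdeg := hom_deg hG (mem_support_iff.1 hs)
  rw [par, aeval_monomial, Finsupp.prod_fintype _ _ (by simp)]
  simp only [Fin.prod_univ_three, Matrix.cons_val_zero, Matrix.cons_val_one, Matrix.cons_val,
    one_pow, mul_one]
  rw [← pow_mul, ← pow_add]
  have := hm (s 0) (s 1) (by omega)
  rw [show (algebraMap K (Polynomial K)) (coeff s G) = Polynomial.C (coeff s G) from rfl,
    Polynomial.coeff_C_mul_X_pow, if_neg (fun h => this h.symm)]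

lemma par_deg {G : MvPolynomial (Fin 3) K} {n : ℕ} (hG : G.IsHomogeneous n) :
    (par G).natDegree ≤ 3 * n := by
  rw [Polynomial.natDegree_le_iff_coeff_eq_zero]
  intro m hm
  apply par_coeff hG
  intro a b hab h
  omega

lemma par_next {G : MvPolynomial (Fin 3) K} {n : ℕ} (hG : G.IsHomogeneous n) (hn : 0 < n) :
    (par G).coeff (3 * n - 1) = 0 := by
  apply par_coeff hG
  intro a b hab h
  omega

lemma par_mem {G : MvPolynomial (Fin 3) K} (t : K) {c : ℕ} (hG : G ∈ vI ![t, t ^ 3, 1] ^ c) :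
    (Polynomial.X - Polynomial.C t) ^ c ∣ par G := by
  have h1 : Ideal.map (par : MvPolynomial (Fin 3) K →ₐ[K] Polynomial K) (vI ![t, t ^ 3, 1]) ≤
      Ideal.span {Polynomial.X - Polynomial.C t} := by
    rw [vI, Ideal.map_span, Ideal.span_le]
    rintro _ ⟨_, ⟨⟨i, j⟩, rfl⟩, rfl⟩
    rw [SetLike.mem_coe, Ideal.mem_span_singleton, Polynomial.dvd_iff_isRoot, Polynomial.IsRoot]
    fin_cases i <;> fin_cases j <;> simp [par] <;> ring
  have h2 := Ideal.mem_map_of_mem (par : MvPolynomial (Fin 3) K →ₐ[K] Polynomial K) hG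
  rw [Ideal.map_pow] at h2
  have h3 := Ideal.pow_right_mono h1 c h2
  rwa [Ideal.span_singleton_pow, Ideal.mem_span_singleton] at h3

lemma Cu_mem (t : K) : Cu ∈ vI ![t, t ^ 3, 1] := by
  have h0 := lin0_mem ![t, t ^ 3, 1] (by simp)
  have h1 := lin1_mem ![t, t ^ 3, 1] (by simp)
  simp only [Matrix.cons_val_zero, Matrix.cons_val_one] at h0 h1
  have : (Cu : MvPolynomial (Fin 3) K) =
      (X 0 ^ 2 + X 0 * (C t * X 2) + (C t * X 2) ^ 2) *
        (X 0 - C t * X 2) - X 2 ^ 2 * (X 1 - C (t ^ 3) * X 2) := by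
    simp [Cu]
    ring
  rw [this]
  exact Ideal.sub_mem _ (Ideal.mul_mem_left _ _ h0) (Ideal.mul_mem_left _ _ h1)

lemma Cu_notMem_sq (t : K) : Cu ∉ vI ![t, t ^ 3, 1] ^ 2 := by
  intro h
  let tg : MvPolynomial (Fin 3) K →ₐ[K] Polynomial K :=
    aeval ![Polynomial.C t, Polynomial.C (t ^ 3) + Polynomial.X, 1]
  have h1 : Ideal.map tg (vI ![t, t ^ 3, 1]) ≤ Ideal.span {Polynomial.X} := by
    rw [vI, Ideal.map_span, Ideal.span_le]
    rintro _ ⟨_, ⟨⟨i, j⟩, rfl⟩, rfl⟩
    rw [SetLike.mem_coe, Ideal.mem_span_singleton, Polynomial.X_dvd_iff,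
      Polynomial.coeff_zero_eq_eval_zero]
    fin_cases i <;> fin_cases j <;> simp [tg] <;> ring
  have h2 := Ideal.mem_map_of_mem tg h
  rw [Ideal.map_pow] at h2
  have h3 := Ideal.pow_right_mono h1 2 h2
  rw [Ideal.span_singleton_pow, Ideal.mem_span_singleton] at h3
  have h4 : tg Cu = - Polynomial.X := by
    simp [tg, Cu]
  rw [h4] at h3
  rw [dvd_neg, Polynomial.X_pow_dvd_iff] at h3
  have := h3 1 (by norm_num)
  simp at this

lemma od_Cu (t : K) : od t (t ^ 3) Cu = 1 := by
  have h1 := (le_od_iff t (t ^ 3) (Cu_ne_zero (K := K)) 1).1 (by rw [pow_one]; exact Cu_mem t)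
  have h2 : ¬ 2 ≤ od t (t ^ 3) (Cu : MvPolynomial (Fin 3) K) := by
    intro h
    exact Cu_notMem_sq t ((le_od_iff t (t ^ 3) (Cu_ne_zero (K := K)) 2).2 h)
  omega

end Pool.Agent.H4R3.BN
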