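import Mathlib
import Pool.Agent.H4R3.BNc
import Pool.Agent.Helper413.Quad.Hom

set_option autoImplicit false

open MvPolynomial

namespace Pool.Agent.H4R3.BN

variable {K : Type*} [Field K] [CharZero K]

/-- the parameters `1, 4, 9, …, 81` of the nine points -/
def tt (K : Type*) [Field K] (i : Fin 9) : K := ((((i : ℕ) + 1) ^ 2 : ℕ) : K)

lemma tt_inj : Function.Injective (tt K) := by
  intro i j h
  unfold tt at h
  have h1 : ((i : ℕ) + 1) ^ 2 = ((j : ℕ) + 1) ^ 2 := by exact_mod_cast h
  have h2 : (i : ℕ) + 1 = (j : ℕ) + 1 := by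
    exact (Nat.pow_left_injective (n := 2) (by norm_num)) h1
  exact Fin.ext (by omega)

/-- order at the `i`-th point -/
noncomputable def oo (F : MvPolynomial (Fin 3) K) (i : Fin 9) : ℕ := od (tt K i) (tt K i ^ 3) F

lemma oo_mul {F G : MvPolynomial (Fin 3) K} (hF : F ≠ 0) (hG : G ≠ 0) (i : Fin 9) :
    oo (F * G) i = oo F i + oo G i := od_mul _ _ hF hG

lemma delta {P : MvPolynomial (Fin 3) K} {a : ℕ} (hP : P.IsHomogeneous a) (ha : 0 < a)
    (hC : ¬ Cu ∣ P) : ∑ i, oo P i + 1 ≤ 3 * a := by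
  classical
  have hP0 : P ≠ 0 := by rintro rfl; exact hC (dvd_zero _)
  have hpar : par P ≠ 0 := fun h => hC (Cu_dvd_of_par hP h)
  set D : Polynomial K := ∏ i : Fin 9, (Polynomial.X - Polynomial.C (tt K i)) ^ oo P i with hD
  have hmon : ∀ i ∈ (Finset.univ : Finset (Fin 9)),
      ((Polynomial.X - Polynomial.C (tt K i)) ^ oo P i).Monic :=
    fun i _ => (Polynomial.monic_X_sub_C _).pow _
  have hDm : D.Monic := Polynomial.monic_prod_of_monic _ _ hmon
  have hDdeg : D.natDegree = ∑ i, oo P i := by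
    rw [hD, Polynomial.natDegree_prod_of_monic _ _ hmon]
    apply Finset.sum_congr rfl
    intro i _
    rw [Polynomial.natDegree_pow, Polynomial.natDegree_X_sub_C, mul_one]
  have hdvd : D ∣ par P := by
    apply Finset.prod_dvd_of_coprime
    · intro i _ j _ hij
      exact (Polynomial.pairwise_coprime_X_sub_C tt_inj hij).pow
    · intro i _
      exact par_mem _ ((le_od_iff _ _ hP0 _).2 le_rfl)
  obtain ⟨Q, hQ⟩ := hdvd
  have hQ0 : Q ≠ 0 := by rintro rfl; rw [mul_zero] at hQ; exact hpar hQ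
  have h1 := par_deg hP
  have h2 : (par P).natDegree = D.natDegree + Q.natDegree := by
    rw [hQ, Polynomial.natDegree_mul hDm.ne_zero hQ0]
  by_contra hcon
  have h3 : ∑ i, oo P i = 3 * a := by omega
  have h4 : Q.natDegree = 0 := by omega
  have h5 := par_next hP ha
  obtain ⟨c, rfl⟩ := Polynomial.natDegree_eq_zero.1 h4
  have hc : c ≠ 0 := by rintro rfl; simp at hQ0
  rw [hQ, Polynomial.coeff_mul_C] at h5
  have h6 : D.coeff (3 * a - 1) = 0 := (mul_eq_zero.1 h5).resolve_right hc
  have h7 : D.nextCoeff = 0 := by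
    rw [Polynomial.nextCoeff_of_natDegree_pos (by omega), hDdeg, h3, h6]
  rw [hD, Polynomial.Monic.nextCoeff_prod _ _ hmon] at h7
  have h8 : ∑ i : Fin 9, ((Polynomial.X - Polynomial.C (tt K i)) ^ oo P i).nextCoeff
      = -((∑ i : Fin 9, oo P i * ((i : ℕ) + 1) ^ 2 : ℕ) : K) := by
    rw [Nat.cast_sum, ← Finset.sum_neg_distrib]
    apply Finset.sum_congr rfl
    intro i _
    rw [Polynomial.Monic.nextCoeff_pow (Polynomial.monic_X_sub_C _), Polynomial.nextCoeff_X_sub_C]
    unfold tt
    push_cast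
    rw [nsmul_eq_mul]
    ring
  rw [h8, neg_eq_zero, Nat.cast_eq_zero, Finset.sum_eq_zero_iff] at h7
  have h9 : ∑ i, oo P i = 0 := by
    apply Finset.sum_eq_zero
    intro i hi
    have := h7 i hi
    rcases Nat.mul_eq_zero.1 this with h | h
    · exact h
    · exfalso
      have : 0 < ((i : ℕ) + 1) ^ 2 := by positivity
      omega
  omega

lemma two_choose (a : ℕ) : 2 * (a + 1).choose 2 = (a + 1) * a := by
  rw [Nat.choose_two_right, Nat.add_sub_cancel]
  exact Nat.mul_div_cancel' (Nat.even_mul_pred_self (a + 1)).two_dvd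

/-- the multiplicities of the `(-1)`-curve class -/
def mm (N : ℕ) : Fin 9 → ℕ :=
  ![(N + 1) * N, (N + 1) * (N + 2), (N + 1) ^ 2, (N + 1) ^ 2, (N + 1) ^ 2, (N + 1) ^ 2,
    (N + 1) ^ 2, (N + 1) ^ 2, N * (N + 2)]

lemma mm_sum (N : ℕ) : ∑ i, mm N i + 1 = 9 * (N + 1) ^ 2 := by
  simp [mm, Fin.sum_univ_succ]
  ring

lemma mm_sq (N : ℕ) : ∑ i, mm N i ^ 2 = 9 * ((N + 1) ^ 2) ^ 2 + 1 := by
  simp [mm, Fin.sum_univ_succ]
  ring

lemma mm_count (N : ℕ) :
    ∑ i, (mm N i + 1).choose 2 < (3 * (N + 1) ^ 2 + 2).choose 2 := by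
  have h1 : 2 * ∑ i, (mm N i + 1).choose 2 = ∑ i, mm N i ^ 2 + ∑ i, mm N i := by
    rw [Finset.mul_sum, ← Finset.sum_add_distrib]
    apply Finset.sum_congr rfl
    intro i _
    rw [two_choose]; ring
  have h2 := two_choose (3 * (N + 1) ^ 2 + 1)
  have h3 := mm_sum N
  have h4 := mm_sq N
  rw [h4] at h1
  nlinarith

/-- existence of the curves `B` -/
lemma exists_B (N : ℕ) : ∃ (B : MvPolynomial (Fin 3) K) (b k : ℕ), B.IsHomogeneous b ∧
    Irreducible B ∧ b + 3 * k = 3 * (N + 1) ^ 2 ∧ ∑ i, oo B i + 1 = 3 * b ∧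
    ∑ i, oo B i ^ 2 = b ^ 2 + 1 + 2 * k := by
  classical
  obtain ⟨F, hF0, hFh, hFm⟩ := exists_form (tt K) (fun i => tt K i ^ 3) (3 * (N + 1) ^ 2) (mm N)
    (mm_count N)
  have hFm' : ∀ i, mm N i ≤ oo F i := fun i => (le_od_iff _ _ hF0 _).1 (hFm i)
  have hfin : FiniteMultiplicity (Cu : MvPolynomial (Fin 3) K) F :=
    FiniteMultiplicity.of_not_isUnit Cu_not_unit hF0
  obtain ⟨B, hB, hBC⟩ := hfin.exists_eq_pow_mul_and_not_dvd
  set k := multiplicity (Cu : MvPolynomial (Fin 3) K) F with hk
  have hCk : (Cu : MvPolynomial (Fin 3) K) ^ k ≠ 0 := pow_ne_zero _ Cu_ne_zero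
  have hB0 : B ≠ 0 := by rintro rfl; rw [mul_zero] at hB; exact hF0 hB
  obtain ⟨a, b, hCa, hBb, hab⟩ := Helper413.Quad.isHomogeneous_of_mul
    (f := Cu ^ k) (g := B) (mul_ne_zero hCk hB0) (by rw [← hB]; exact hFh)
  have ha : a = 3 * k := by
    exact IsHomogeneous.inj_right hCa (Cu_hom.pow k) hCk
  have hoo : ∀ i, oo F i = k + oo B i := by
    intro i
    rw [hB, oo_mul hCk hB0]
    congr 1
    unfold oo
    rw [od_pow _ _ Cu_ne_zero, od_Cu, mul_one]
  have hsumF : ∑ i, oo F i = 9 * k + ∑ i, oo B i := by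
    simp_rw [hoo]
    rw [Finset.sum_add_distrib]
    simp
  have hge : ∑ i, mm N i ≤ ∑ i, oo F i := Finset.sum_le_sum fun i _ => hFm' i
  have hs := mm_sum N
  have hbpos : 0 < b := by
    rcases Nat.eq_zero_or_pos b with h | h
    · exfalso
      subst h
      have hk1 : k = (N + 1) ^ 2 := by omega
      have hB1 : ∀ i, oo B i = 0 := by
        intro i
        obtain ⟨c, hc⟩ : ∃ c, B = C c := by
          refine ⟨coeff 0 B, ?_⟩
          ext s
          rw [coeff_C]
          split_ifs with h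
          · rw [h]
          · by_contra hne
            apply h
            have := hom_deg hBb hne
            ext i
            fin_cases i <;> simp <;> omega
        rw [hc]
        unfold oo od
        rw [show (C c : MvPolynomial (Fin 3) K) = algebraMap K _ c from rfl, AlgHom.commutes]
        rw [show (algebraMap K (Polynomial (MvPolynomial (Fin 3) K)) c)
          = Polynomial.C (C c) from rfl]
        exact Polynomial.natTrailingDegree_C _
      have h1 := hFm' 1
      rw [hoo, hB1] at h1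
      simp [mm] at h1
      nlinarith
    · exact h
  have hd := delta hBb hbpos hBC
  have hsumB : ∑ i, oo B i + 1 = 3 * b := by omega
  have heq : ∑ i, mm N i = ∑ i, oo F i := by omega
  have hall : ∀ i, mm N i = k + oo B i := by
    intro i
    rw [← hoo]
    exact (Finset.sum_eq_sum_iff_of_le (fun i _ => hFm' i)).1 heq i (Finset.mem_univ _)
  refine ⟨B, b, k, hBb, ?_, by omega, hsumB, ?_⟩
  · constructor
    · intro hu
      have h1 : b = 0 := by
        obtain ⟨c, hc⟩ := hu.exists_right_inv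
        have h2 : (B * c).IsHomogeneous 0 := by rw [hc]; exact isHomogeneous_one _ _
        obtain ⟨x, y, hx, _, hxy⟩ := Helper413.Quad.isHomogeneous_of_mul
          (f := B) (g := c) (by rw [hc]; exact one_ne_zero) h2
        have := IsHomogeneous.inj_right hx hBb hB0
        omega
      omega
    · intro P Q hPQ
      have hPQ0 : P * Q ≠ 0 := by rw [← hPQ]; exact hB0
      obtain ⟨x, y, hx, hy, hxy⟩ := Helper413.Quad.isHomogeneous_of_mul hPQ0
        (by rw [← hPQ]; exact hBb)
      have hP0 := left_ne_zero_of_mul hPQ0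
      have hQ0 := right_ne_zero_of_mul hPQ0
      by_contra hcon
      push Not at hcon
      have unit_of : ∀ R : MvPolynomial (Fin 3) K, R ≠ 0 → R.IsHomogeneous 0 → IsUnit R := by
        intro R hR hR0
        have hc : R = C (coeff 0 R) := by
          ext s
          rw [coeff_C]
          split_ifs with h
          · rw [h]
          · by_contra hne
            apply h
            have := hom_deg hR0 hne
            ext i
            fin_cases i <;> simp <;> omega
        rw [hc]
        apply IsUnit.map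
        apply IsUnit.mk0
        intro h0
        rw [h0, map_zero] at hc
        exact hR hc
      have hxpos : 0 < x := by
        rcases Nat.eq_zero_or_pos x with h | h
        · exact absurd (unit_of P hP0 (h ▸ hx)) hcon.1
        · exact h
      have hypos : 0 < y := by
        rcases Nat.eq_zero_or_pos y with h | h
        · exact absurd (unit_of Q hQ0 (h ▸ hy)) hcon.2
        · exact h
      have d1 := delta hx hxpos (fun h => hBC (hPQ ▸ h.mul_right Q))
      have d2 := delta hy hypos (fun h => hBC (hPQ ▸ h.mul_left P))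
      have d3 : ∑ i, oo B i = ∑ i, oo P i + ∑ i, oo Q i := by
        rw [← Finset.sum_add_distrib]
        apply Finset.sum_congr rfl
        intro i _
        rw [hPQ, oo_mul hP0 hQ0]
      omega
  · have h1 := mm_sq N
    have h2 : ∑ i, mm N i ^ 2 = 9 * k ^ 2 + 2 * k * ∑ i, oo B i + ∑ i, oo B i ^ 2 := by
      simp_rw [hall]
      rw [Finset.mul_sum]
      have : ∀ i : Fin 9, (k + oo B i) ^ 2 = k ^ 2 + 2 * k * oo B i + oo B i ^ 2 := by
        intro i; ring
      simp_rw [this]
      rw [Finset.sum_add_distrib, Finset.sum_add_distrib]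
      simp
    have h3 : b + 3 * k = 3 * (N + 1) ^ 2 := by omega
    have h4 : (b + 3 * k) ^ 2 = 9 * ((N + 1) ^ 2) ^ 2 := by rw [h3]; ring
    zify at *
    have h5 : (∑ i, (oo B i : ℤ)) = 3 * b - 1 := by linarith
    rw [h5] at h2
    nlinarith

end Pool.Agent.H4R3.BN
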