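import Mathlib
import Pool.Agent.H4R3.BNb
import Pool.Agent.Helper413.Quad.Hom

set_option autoImplicit false

open MvPolynomial

namespace Pool.Agent.H4R3.BN

variable {K : Type*} [Field K]

/-- sign changes of the first two variables -/
noncomputable def sg (u v : K) : MvPolynomial (Fin 3) K →ₐ[K] MvPolynomial (Fin 3) K :=
  aeval ![C u * X 0, C v * X 1, X 2]

lemma sg_sg (u v u' v' : K) (F : MvPolynomial (Fin 3) K) :
    sg u v (sg u' v' F) = sg (u * u') (v * v') F := by
  have : (sg u v).comp (sg u' v') = sg (u * u') (v * v') := by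
    apply MvPolynomial.algHom_ext
    intro i
    have hC : ∀ c : K, (sg u v) (C c) = C c := by
      intro c
      rw [← MvPolynomial.algebraMap_eq, AlgHom.commutes]
    fin_cases i <;> simp [sg] <;> ring
  exact DFunLike.congr_fun this F

lemma sg_one (F : MvPolynomial (Fin 3) K) : sg 1 1 F = F := by
  have : (sg 1 1) = AlgHom.id K (MvPolynomial (Fin 3) K) := by
    apply MvPolynomial.algHom_ext
    intro i
    fin_cases i <;> simp [sg]
  rw [this]; rfl

lemma sg_hom (u v : K) {F : MvPolynomial (Fin 3) K} {n : ℕ} (hF : F.IsHomogeneous n) :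
    (sg u v F).IsHomogeneous n := by
  have := hF.aeval (n := 1) ![C u * X 0, C v * X 1, (X 2 : MvPolynomial (Fin 3) K)] ?_
  · rw [one_mul] at this
    exact this
  · intro i
    fin_cases i
    · exact (isHomogeneous_C_mul_X _ _)
    · exact (isHomogeneous_C_mul_X _ _)
    · exact isHomogeneous_X _ _

lemma sg_expand {u v : K} (hu : u ^ 2 = 1) (hv : v ^ 2 = 1) (B : MvPolynomial (Fin 3) K) :
    sg u v (expand 2 B) = expand 2 B := by
  have : (sg u v).comp (expand 2) = (expand 2 : MvPolynomial (Fin 3) K →ₐ[K] _) := by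
    apply MvPolynomial.algHom_ext
    intro i
    fin_cases i <;> simp [sg, mul_pow, ← C_pow, hu, hv]
  exact DFunLike.congr_fun this B

lemma coeff_sg (u v : K) (F : MvPolynomial (Fin 3) K) (s : Fin 3 →₀ ℕ) :
    coeff s (sg u v F) = u ^ s 0 * v ^ s 1 * coeff s F := by
  classical
  induction F using MvPolynomial.induction_on' with
  | monomial t c =>
    have h1 : sg u v (monomial t c) = C (u ^ t 0 * v ^ t 1) * monomial t c := by
      rw [sg, aeval_monomial, Finsupp.prod_fintype _ _ (by simp), monomial_eq,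
        Finsupp.prod_fintype _ _ (by simp)]
      simp [Fin.prod_univ_three]
      ring
    rw [h1, coeff_C_mul]
    by_cases hst : t = s
    · subst hst; rfl
    · simp [coeff_monomial, hst]
  | add p q hp hq =>
    rw [map_add, coeff_add, hp, hq, coeff_add]
    ring

lemma sg_ne_zero {u v : K} (hu : u ^ 2 = 1) (hv : v ^ 2 = 1) {F : MvPolynomial (Fin 3) K}
    (hF : F ≠ 0) : sg u v F ≠ 0 := by
  intro h
  apply hF
  have := sg_sg u v u v F
  rw [h, map_zero, ← pow_two, ← pow_two, hu, hv, sg_one] at this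
  exact this.symm

lemma sg_mem (u v q0 q1 : K) {F : MvPolynomial (Fin 3) K} {c : ℕ} (hu : u ^ 2 = 1) (hv : v ^ 2 = 1)
    (hF : F ∈ vI ![q0, q1, 1] ^ c) : sg u v F ∈ vI ![u * q0, v * q1, 1] ^ c := by
  have h0 := lin0_mem ![u * q0, v * q1, 1] (by simp)
  have h1 := lin1_mem ![u * q0, v * q1, 1] (by simp)
  simp only [Matrix.cons_val_zero, Matrix.cons_val_one] at h0 h1
  have hCu : (C u * C u : MvPolynomial (Fin 3) K) = 1 := by
    rw [← C_mul, ← pow_two, hu, C_1]
  have hCv : (C v * C v : MvPolynomial (Fin 3) K) = 1 := by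
    rw [← C_mul, ← pow_two, hv, C_1]
  -- the two linear forms
  have a0 : (C u * X 0 - C q0 * X 2 : MvPolynomial (Fin 3) K) ∈ vI ![u * q0, v * q1, 1] := by
    have : (C u * X 0 - C q0 * X 2 : MvPolynomial (Fin 3) K)
        = C u * (X 0 - C (u * q0) * X 2) := by
      rw [C_mul]
      linear_combination (-(C q0 * X 2)) * (hCu.symm)
    rw [this]; exact Ideal.mul_mem_left _ _ h0
  have a1 : (C v * X 1 - C q1 * X 2 : MvPolynomial (Fin 3) K) ∈ vI ![u * q0, v * q1, 1] := by
    have : (C v * X 1 - C q1 * X 2 : MvPolynomial (Fin 3) K)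
        = C v * (X 1 - C (v * q1) * X 2) := by
      rw [C_mul]
      linear_combination (-(C q1 * X 2)) * (hCv.symm)
    rw [this]; exact Ideal.mul_mem_left _ _ h1
  have a2 : (C q0 * (C v * X 1) - C q1 * (C u * X 0) : MvPolynomial (Fin 3) K)
      ∈ vI ![u * q0, v * q1, 1] := by
    have : (C q0 * (C v * X 1) - C q1 * (C u * X 0) : MvPolynomial (Fin 3) K)
        = C q0 * (C v * X 1 - C q1 * X 2) - C q1 * (C u * X 0 - C q0 * X 2) := by ring
    rw [this]
    exact Ideal.sub_mem _ (Ideal.mul_mem_left _ _ a1) (Ideal.mul_mem_left _ _ a0)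
  have hm : Ideal.map (sg u v) (vI ![q0, q1, 1]) ≤ vI ![u * q0, v * q1, 1] := by
    conv_lhs => rw [vI]
    rw [Ideal.map_span, Ideal.span_le]
    rintro _ ⟨_, ⟨⟨i, j⟩, rfl⟩, rfl⟩
    rw [SetLike.mem_coe]
    have hC : ∀ c : K, (sg u v) (C c) = C c := by
      intro c
      rw [← MvPolynomial.algebraMap_eq, AlgHom.commutes]
    have hz : (0 : MvPolynomial (Fin 3) K) ∈ vI ![u * q0, v * q1, 1] := Ideal.zero_mem _
    fin_cases i <;> fin_cases j
    · simpa [sg] using hz
    · simpa [sg] using a2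
    · have := neg_mem a0
      simpa [sg] using this
    · have := neg_mem a2
      simpa [sg] using this
    · simpa [sg] using hz
    · have := neg_mem a1
      simpa [sg] using this
    · simpa [sg] using a0
    · simpa [sg] using a1
    · simpa [sg] using hz
  have h2 := Ideal.mem_map_of_mem (sg u v) hF
  rw [Ideal.map_pow] at h2
  exact Ideal.pow_right_mono hm c h2

lemma od_sg (u v q0 q1 : K) {F : MvPolynomial (Fin 3) K} (hF : F ≠ 0) (hu : u ^ 2 = 1)
    (hv : v ^ 2 = 1) : od q0 q1 (sg u v F) ≤ od (u * q0) (v * q1) F := by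
  have h1 := (le_od_iff q0 q1 (sg_ne_zero hu hv hF) _).2 le_rfl
  have h2 := sg_mem u v q0 q1 hu hv h1
  rw [sg_sg, ← pow_two, ← pow_two, hu, hv, sg_one] at h2
  exact (le_od_iff _ _ hF _).1 h2

lemma expand_mem (q0 q1 : K) {F : MvPolynomial (Fin 3) K} {c : ℕ}
    (hF : F ∈ vI ![q0 ^ 2, q1 ^ 2, 1] ^ c) : expand 2 F ∈ vI ![q0, q1, 1] ^ c := by
  have h0 := lin0_mem ![q0, q1, 1] (by simp)
  have h1 := lin1_mem ![q0, q1, 1] (by simp)
  simp only [Matrix.cons_val_zero, Matrix.cons_val_one] at h0 h1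
  have a0 : (X 0 ^ 2 - C q0 ^ 2 * X 2 ^ 2 : MvPolynomial (Fin 3) K) ∈ vI ![q0, q1, 1] := by
    have : (X 0 ^ 2 - C q0 ^ 2 * X 2 ^ 2 : MvPolynomial (Fin 3) K)
        = (X 0 + C q0 * X 2) * (X 0 - C q0 * X 2) := by ring
    rw [this]; exact Ideal.mul_mem_left _ _ h0
  have a1 : (X 1 ^ 2 - C q1 ^ 2 * X 2 ^ 2 : MvPolynomial (Fin 3) K) ∈ vI ![q0, q1, 1] := by
    have : (X 1 ^ 2 - C q1 ^ 2 * X 2 ^ 2 : MvPolynomial (Fin 3) K)
        = (X 1 + C q1 * X 2) * (X 1 - C q1 * X 2) := by ring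
    rw [this]; exact Ideal.mul_mem_left _ _ h1
  have a2 : (C q0 ^ 2 * X 1 ^ 2 - C q1 ^ 2 * X 0 ^ 2 : MvPolynomial (Fin 3) K)
      ∈ vI ![q0, q1, 1] := by
    have : (C q0 ^ 2 * X 1 ^ 2 - C q1 ^ 2 * X 0 ^ 2 : MvPolynomial (Fin 3) K)
        = C q0 ^ 2 * (X 1 ^ 2 - C q1 ^ 2 * X 2 ^ 2)
          - C q1 ^ 2 * (X 0 ^ 2 - C q0 ^ 2 * X 2 ^ 2) := by ring
    rw [this]
    exact Ideal.sub_mem _ (Ideal.mul_mem_left _ _ a1) (Ideal.mul_mem_left _ _ a0)
  have hm : Ideal.map (expand 2 : MvPolynomial (Fin 3) K →ₐ[K] _) (vI ![q0 ^ 2, q1 ^ 2, 1]) ≤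
      vI ![q0, q1, 1] := by
    conv_lhs => rw [vI]
    rw [Ideal.map_span, Ideal.span_le]
    rintro _ ⟨_, ⟨⟨i, j⟩, rfl⟩, rfl⟩
    rw [SetLike.mem_coe]
    have hz : (0 : MvPolynomial (Fin 3) K) ∈ vI ![q0, q1, 1] := Ideal.zero_mem _
    fin_cases i <;> fin_cases j
    · simpa using hz
    · simpa using a2
    · have := neg_mem a0
      simpa using this
    · have := neg_mem a2
      simpa using this
    · simpa using hz
    · have := neg_mem a1
      simpa using this
    · simpa using a0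
    · simpa using a1
    · simpa using hz
  have h2 := Ideal.mem_map_of_mem (expand 2 : MvPolynomial (Fin 3) K →ₐ[K] _) hF
  rw [Ideal.map_pow] at h2
  exact Ideal.pow_right_mono hm c h2

/-- the norm from `K[x, y, z]` down to the even polynomials -/
noncomputable def NN (H : MvPolynomial (Fin 3) K) : MvPolynomial (Fin 3) K :=
  H * sg (-1) 1 H * (sg 1 (-1) H * sg (-1) (-1) H)

lemma NN_mul (F G : MvPolynomial (Fin 3) K) : NN (F * G) = NN F * NN G := by
  unfold NN
  simp only [map_mul]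
  ring

lemma NN_expand (B : MvPolynomial (Fin 3) K) : NN (expand 2 B) = (expand 2 B) ^ 4 := by
  unfold NN
  rw [sg_expand (by norm_num) (by norm_num), sg_expand (by norm_num) (by norm_num),
    sg_expand (by norm_num) (by norm_num)]
  ring

lemma NN_inv0 (F : MvPolynomial (Fin 3) K) : sg (-1) 1 (NN F) = NN F := by
  unfold NN
  simp only [map_mul, sg_sg]
  norm_num
  rw [sg_one]
  ring

lemma NN_inv1 (F : MvPolynomial (Fin 3) K) : sg 1 (-1) (NN F) = NN F := by
  unfold NN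
  simp only [map_mul, sg_sg]
  norm_num
  rw [sg_one]
  ring

lemma NN_hom {F : MvPolynomial (Fin 3) K} {n : ℕ} (hF : F.IsHomogeneous n) :
    (NN F).IsHomogeneous (4 * n) := by
  have := (hF.mul (sg_hom (-1) 1 hF)).mul ((sg_hom 1 (-1) hF).mul (sg_hom (-1) (-1) hF))
  unfold NN
  convert this using 1
  ring

lemma NN_ne_zero {F : MvPolynomial (Fin 3) K} (hF : F ≠ 0) : NN F ≠ 0 := by
  unfold NN
  have a := sg_ne_zero (u := (-1 : K)) (v := 1) (by norm_num) (by norm_num) hF
  have b := sg_ne_zero (u := (1 : K)) (v := -1) (by norm_num) (by norm_num) hF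
  have c := sg_ne_zero (u := (-1 : K)) (v := -1) (by norm_num) (by norm_num) hF
  exact mul_ne_zero (mul_ne_zero hF a) (mul_ne_zero b c)

/-- a polynomial with even exponents is a polynomial in the squares -/
lemma exists_expand {F : MvPolynomial (Fin 3) K}
    (h : ∀ s : Fin 3 →₀ ℕ, coeff s F ≠ 0 → ∀ i, Even (s i)) :
    ∃ M : MvPolynomial (Fin 3) K, F = expand 2 M := by
  classical
  refine ⟨∑ s ∈ F.support, monomial (s.mapRange (fun n => n / 2) (by simp)) (coeff s F), ?_⟩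
  rw [map_sum]
  conv_lhs => rw [F.as_sum]
  apply Finset.sum_congr rfl
  intro s hs
  rw [expand_monomial]
  have h1 := h s (mem_support_iff.1 hs)
  have h2 : (2 • s.mapRange (fun n => n / 2) (by simp) : Fin 3 →₀ ℕ) = s := by
    ext i
    simp only [Finsupp.smul_apply, Finsupp.mapRange_apply, smul_eq_mul]
    exact Nat.mul_div_cancel' (h1 i).two_dvd
  rw [h2]

lemma NN_expand_exists [CharZero K] {F : MvPolynomial (Fin 3) K} {n : ℕ}
    (hF : F.IsHomogeneous n) : ∃ M : MvPolynomial (Fin 3) K, NN F = expand 2 M := by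
  apply exists_expand
  intro s hs
  have h0 : Even (s 0) := by
    have h1 := congrArg (coeff s) (NN_inv0 F)
    rw [coeff_sg, one_pow, mul_one] at h1
    by_contra hodd
    rw [Nat.not_even_iff_odd] at hodd
    rw [hodd.neg_one_pow] at h1
    apply hs
    have h2 : (2 : K) * coeff s (NN F) = 0 := by linear_combination -h1
    exact (mul_eq_zero.1 h2).resolve_left two_ne_zero
  have h1 : Even (s 1) := by
    have h1 := congrArg (coeff s) (NN_inv1 F)
    rw [coeff_sg, one_pow, one_mul] at h1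
    by_contra hodd
    rw [Nat.not_even_iff_odd] at hodd
    rw [hodd.neg_one_pow] at h1
    apply hs
    have h2 : (2 : K) * coeff s (NN F) = 0 := by linear_combination -h1
    exact (mul_eq_zero.1 h2).resolve_left two_ne_zero
  have h2 : Even (s 2) := by
    have h3 := hom_deg (NN_hom hF) hs
    have h4 : Even (s 0 + s 1 + s 2) := by rw [h3]; exact ⟨2 * n, by ring⟩
    rw [Nat.even_add] at h4
    exact h4.1 (h0.add h1)
  intro i
  fin_cases i
  · exact h0
  · exact h1
  · exact h2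

lemma expand_hom {B : MvPolynomial (Fin 3) K} {b : ℕ} (hB : B.IsHomogeneous b) :
    (expand 2 B).IsHomogeneous (2 * b) := by
  have := hB.aeval (n := 2) (fun i => (X i : MvPolynomial (Fin 3) K) ^ 2)
    (fun i => isHomogeneous_X_pow _ _)
  exact this

lemma norm_main [CharZero K] {B H : MvPolynomial (Fin 3) K} {b h : ℕ} (hB : B.IsHomogeneous b)
    (hBi : Irreducible B) (hH : H.IsHomogeneous h) (hHi : Irreducible H)
    (hd : H ∣ expand 2 B) :
    ∃ j : ℕ, 1 ≤ j ∧ 4 * h = 2 * b * j ∧ ∀ q0 q1 : K, j * od (q0 ^ 2) (q1 ^ 2) B ≤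
      od q0 q1 H + od (-q0) q1 H + (od q0 (-q1) H + od (-q0) (-q1) H) := by
  obtain ⟨H', hH'⟩ := hd
  have hB0 : B ≠ 0 := hBi.ne_zero
  have hH0 : H ≠ 0 := hHi.ne_zero
  have hE0 : expand 2 B ≠ 0 := (expand_ne_zero (by norm_num)).2 hB0
  have hH'0 : H' ≠ 0 := by rintro rfl; rw [mul_zero] at hH'; exact hE0 hH'
  obtain ⟨a, a', ha, ha', haa⟩ := Helper413.Quad.isHomogeneous_of_mul (f := H) (g := H')
    (mul_ne_zero hH0 hH'0) (by rw [← hH']; exact expand_hom hB)
  obtain ⟨M, hM⟩ := NN_expand_exists hH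
  obtain ⟨M', hM'⟩ := NN_expand_exists ha'
  have h1 : expand 2 (M * M') = expand 2 (B ^ 4) := by
    rw [map_mul, ← hM, ← hM', ← NN_mul, ← hH', NN_expand, map_pow]
  have h2 : M * M' = B ^ 4 := expand_injective (by norm_num) h1
  obtain ⟨j, hj4, hj⟩ := (dvd_prime_pow hBi.prime 4).1 (Dvd.intro M' h2)
  obtain ⟨w, hw⟩ := hj.symm
  -- N(H) = expand 2 M, M = B ^ j * w
  have hNH : NN H = (expand 2 B) ^ j * expand 2 (w : MvPolynomial (Fin 3) K) := by
    rw [hM, ← hw, map_mul, map_pow]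
  have hwu : IsUnit (expand 2 (w : MvPolynomial (Fin 3) K)) := w.isUnit.map _
  have hw0 : expand 2 (w : MvPolynomial (Fin 3) K) ≠ 0 := hwu.ne_zero
  have hNH0 := NN_ne_zero hH0
  have hEj0 : (expand 2 B) ^ j ≠ 0 := pow_ne_zero _ hE0
  obtain ⟨x, y, hx, hy, hxy⟩ := Helper413.Quad.isHomogeneous_of_mul
    (f := (expand 2 B) ^ j) (g := expand 2 (w : MvPolynomial (Fin 3) K)) (mul_ne_zero hEj0 hw0)
    (by rw [← hNH]; exact NN_hom hH)
  have hx' : x = 2 * b * j := IsHomogeneous.inj_right hx ((expand_hom hB).pow j) hEj0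
  have hy' : y = 0 := by
    obtain ⟨c, hc⟩ := hwu.exists_right_inv
    have h2 : (expand 2 (w : MvPolynomial (Fin 3) K) * c).IsHomogeneous 0 := by
      rw [hc]; exact isHomogeneous_one _ _
    obtain ⟨x', y', hx', _, hxy'⟩ := Helper413.Quad.isHomogeneous_of_mul
      (f := expand 2 (w : MvPolynomial (Fin 3) K)) (g := c) (by rw [hc]; exact one_ne_zero) h2
    have := IsHomogeneous.inj_right hx' hy hw0
    omega
  have hdeg : 4 * h = 2 * b * j := by omega
  refine ⟨j, ?_, hdeg, ?_⟩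
  · rcases Nat.eq_zero_or_pos j with h0 | h0
    · exfalso
      rw [h0, pow_zero, one_mul] at hNH
      have hu : IsUnit (NN H) := by rw [hNH]; exact hwu
      unfold NN at hu
      exact hHi.not_isUnit (isUnit_of_mul_isUnit_left (isUnit_of_mul_isUnit_left hu))
    · exact h0
  · intro q0 q1
    have e1 : od q0 q1 (NN H) = j * od q0 q1 (expand 2 B)
        + od q0 q1 (expand 2 (w : MvPolynomial (Fin 3) K)) := by
      rw [hNH, od_mul _ _ hEj0 hw0, od_pow _ _ hE0]
    have e2 : od (q0 ^ 2) (q1 ^ 2) B ≤ od q0 q1 (expand 2 B) :=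
      (le_od_iff _ _ hE0 _).1 (expand_mem q0 q1 ((le_od_iff _ _ hB0 _).2 le_rfl))
    have n1 : ((-1 : K)) ^ 2 = 1 := by norm_num
    have n2 : ((1 : K)) ^ 2 = 1 := by norm_num
    have z1 := sg_ne_zero n1 n2 hH0
    have z2 := sg_ne_zero n2 n1 hH0
    have z3 := sg_ne_zero n1 n1 hH0
    have e3 : od q0 q1 (NN H) = od q0 q1 H + od q0 q1 (sg (-1) 1 H)
        + (od q0 q1 (sg 1 (-1) H) + od q0 q1 (sg (-1) (-1) H)) := by
      unfold NN
      rw [od_mul _ _ (mul_ne_zero hH0 z1) (mul_ne_zero z2 z3), od_mul _ _ hH0 z1,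
        od_mul _ _ z2 z3]
    have e4 := od_sg (-1) 1 q0 q1 hH0 n1 n2
    have e5 := od_sg 1 (-1) q0 q1 hH0 n2 n1
    have e6 := od_sg (-1) (-1) q0 q1 hH0 n1 n1
    rw [neg_one_mul, one_mul] at e4
    rw [neg_one_mul, one_mul] at e5
    rw [neg_one_mul, neg_one_mul] at e6
    have e7 : j * od (q0 ^ 2) (q1 ^ 2) B ≤ j * od q0 q1 (expand 2 B) := Nat.mul_le_mul_left _ e2
    omega

end Pool.Agent.H4R3.BN
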