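import Mathlib
import Pool.Agent.Helper620.Wg.KI

open Filter Topology

namespace H4EP

/-- The elliptic curve `E = ℂ / Λ`. -/
abbrev Torus (L : PeriodPair) : Type := ℂ ⧸ L.lattice

/-- A complex number representing a point of `E`. -/
noncomputable def rep {L : PeriodPair} (t : Torus L) : ℂ := Quotient.out t

/-- The class in `E` of a complex number. -/
noncomputable def cl (L : PeriodPair) (z : ℂ) : Torus L := L.lattice.mkQ z

theorem cl_rep {L : PeriodPair} (t : Torus L) : cl L (rep t) = t := Quotient.out_eq t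

theorem cl_eq {L : PeriodPair} {z w : ℂ} : cl L z = cl L w ↔ z - w ∈ L.lattice :=
  Submodule.Quotient.eq _

theorem cl_eq_zero {L : PeriodPair} {z : ℂ} : cl L z = 0 ↔ z ∈ L.lattice :=
  Submodule.Quotient.mk_eq_zero _

theorem cl_add {L : PeriodPair} (z w : ℂ) : cl L (z + w) = cl L z + cl L w := map_add _ _ _
theorem cl_sub {L : PeriodPair} (z w : ℂ) : cl L (z - w) = cl L z - cl L w := map_sub _ _ _
theorem cl_neg {L : PeriodPair} (z : ℂ) : cl L (-z) = - cl L z := map_neg _ _

theorem cl_nmul {L : PeriodPair} (n : ℕ) (z : ℂ) : cl L (n * z) = n • cl L z := by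
  rw [← nsmul_eq_mul]
  exact map_nsmul L.lattice.mkQ n z

theorem cl_eq_neg {L : PeriodPair} {z w : ℂ} : cl L z = - cl L w ↔ z + w ∈ L.lattice := by
  rw [← cl_neg, cl_eq, sub_neg_eq_add]

section ord

variable (L : PeriodPair) (c : ℂ)

theorem cNotMem (hc : 2 • cl L c ≠ 0) : c ∉ L.lattice := by
  intro h
  apply hc
  rw [cl_eq_zero.2 h, smul_zero]

theorem mero_sub : Meromorphic (fun w => L.weierstrassP w - L.weierstrassP c) :=
  fun z => (L.meromorphic_weierstrassP z).sub (MeromorphicAt.const _ _)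

theorem ord_sub_lattice {z : ℂ} (hz : z ∈ L.lattice) :
    meromorphicOrderAt (fun w => L.weierstrassP w - L.weierstrassP c) z = ((-2 : ℤ) : WithTop ℤ) := by
  have h1 : (fun w => L.weierstrassP w - L.weierstrassP c)
      = L.weierstrassP + (fun _ => - L.weierstrassP c) := by
    funext w
    simp [sub_eq_add_neg]
  have h2 : meromorphicOrderAt L.weierstrassP z = ((-2 : ℤ) : WithTop ℤ) := by
    rw [L.order_weierstrassP z hz]
    rfl
  rw [h1, meromorphicOrderAt_add_eq_left_of_lt (MeromorphicAt.const _ _), h2]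
  rw [h2, meromorphicOrderAt_const]
  split_ifs
  · exact WithTop.coe_lt_top _
  · exact WithTop.coe_lt_coe.2 (by norm_num)

theorem ana_sub {z : ℂ} (hz : z ∉ L.lattice) :
    AnalyticAt ℂ (fun w => L.weierstrassP w - L.weierstrassP c) z :=
  (L.analyticOnNhd_weierstrassP z hz).sub analyticAt_const

theorem wp_per {z w : ℂ} (h : cl L z = cl L w) : L.weierstrassP z = L.weierstrassP w := by
  have h1 := cl_eq.1 h
  have h2 := L.weierstrassP_add_coe w ⟨z - w, h1⟩
  simp only [add_sub_cancel] at h2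
  exact h2

theorem wp_pm {z : ℂ} (h : cl L z = cl L c ∨ cl L z = - cl L c) :
    L.weierstrassP z = L.weierstrassP c := by
  rcases h with h | h
  · exact wp_per L h
  · rw [← cl_neg] at h
    rw [wp_per L h, L.weierstrassP_neg]

theorem ord_sub_pm (hc : 2 • cl L c ≠ 0) {z : ℂ} (h : cl L z = cl L c ∨ cl L z = - cl L c) :
    meromorphicOrderAt (fun w => L.weierstrassP w - L.weierstrassP c) z = ((1 : ℤ) : WithTop ℤ) := by
  have hz2 : 2 • cl L z ≠ 0 := by
    rcases h with h | h
    · rwa [h]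
    · rw [h, smul_neg]
      simpa using hc
  have hz : z ∉ L.lattice := cNotMem L z hz2
  have hz2' : 2 * z ∉ L.lattice := by
    intro h3
    apply hz2
    have := cl_nmul (L := L) 2 z
    rw [← this]
    exact cl_eq_zero.2 (by exact_mod_cast h3)
  have hd : deriv L.weierstrassP z ≠ 0 := by
    rw [L.deriv_weierstrassP]
    exact Wg.wpd_ne L z hz2'
  have h1 := (L.analyticOnNhd_weierstrassP z hz).analyticOrderAt_sub_eq_one_of_deriv_ne_zero hd
  rw [wp_pm L c h] at h1
  rw [(ana_sub L c hz).meromorphicOrderAt_eq, h1]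
  rfl

theorem wp_ne (hc : 2 • cl L c ≠ 0) {z : ℂ} (hz : cl L z ≠ 0) (h : ¬ (cl L z = cl L c ∨ cl L z = - cl L c)) :
    L.weierstrassP z - L.weierstrassP c ≠ 0 := by
  intro h1
  rw [sub_eq_zero] at h1
  rcases Wg.wp_inj L z c (fun h => hz (cl_eq_zero.2 h)) (cNotMem L c hc) h1 with h2 | h2
  · exact h (Or.inl (cl_eq.2 h2))
  · exact h (Or.inr (cl_eq_neg.2 h2))

theorem ord_sub_else (hc : 2 • cl L c ≠ 0) {z : ℂ} (hz : cl L z ≠ 0)
    (h : ¬ (cl L z = cl L c ∨ cl L z = - cl L c)) :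
    meromorphicOrderAt (fun w => L.weierstrassP w - L.weierstrassP c) z = ((0 : ℤ) : WithTop ℤ) := by
  rw [(ana_sub L c (fun h => hz (cl_eq_zero.2 h))).meromorphicOrderAt_eq]
  have h1 : analyticOrderAt (fun w => L.weierstrassP w - L.weierstrassP c) z = 0 := by
    rw [analyticOrderAt_eq_zero]
    right
    exact wp_ne L c hc hz h
  rw [h1]
  rfl

open Classical in
theorem ord_sub (hc : 2 • cl L c ≠ 0) (z : ℂ) :
    meromorphicOrderAt (fun w => L.weierstrassP w - L.weierstrassP c) z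
      = ((if cl L z = 0 then -2 else if cl L z = cl L c ∨ cl L z = - cl L c then 1 else 0 : ℤ) :
        WithTop ℤ) := by
  split_ifs with h1 h2
  · exact ord_sub_lattice L c (cl_eq_zero.1 h1)
  · exact ord_sub_pm L c hc h2
  · exact ord_sub_else L c hc h1 h2

end ord

section H

variable (L : PeriodPair) (a b : ℂ)

/-- The even elliptic function `(℘ - ℘ a) / (℘ - ℘ b)`. -/
noncomputable def H (w : ℂ) : ℂ :=
  (L.weierstrassP w - L.weierstrassP a) / (L.weierstrassP w - L.weierstrassP b)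

theorem H_mero : Meromorphic (H L a b) :=
  fun z => (mero_sub L a z).div (mero_sub L b z)

theorem H_per {z w : ℂ} (h : cl L z = cl L w) : H L a b z = H L a b w := by
  rw [H, H, wp_per L h]

open Classical in
/-- The order of `H` at a point of `E`. -/
noncomputable def del {L : PeriodPair} (A B t : Torus L) : ℤ :=
  (if t = A ∨ t = -A then 1 else 0) - (if t = B ∨ t = -B then 1 else 0)

theorem H_ord (ha : 2 • cl L a ≠ 0) (hb : 2 • cl L b ≠ 0) (z : ℂ) :
    meromorphicOrderAt (H L a b) z = ((del (cl L a) (cl L b) (cl L z) : ℤ) : WithTop ℤ) := by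
  have h1 : H L a b = (fun w => L.weierstrassP w - L.weierstrassP a)
      / (fun w => L.weierstrassP w - L.weierstrassP b) := rfl
  rw [h1, meromorphicOrderAt_div (mero_sub L a z) (mero_sub L b z), ord_sub L a ha, ord_sub L b hb,
    del]
  have h0a : cl L z = 0 → ¬ (cl L z = cl L a ∨ cl L z = - cl L a) := by
    intro h h2
    apply ha
    rcases h2 with h2 | h2
    · rw [← h2, h, smul_zero]
    · have : cl L a = 0 := by rw [← neg_eq_zero, ← h2, h]
      rw [this, smul_zero]
  have h0b : cl L z = 0 → ¬ (cl L z = cl L b ∨ cl L z = - cl L b) := by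
    intro h h2
    apply hb
    rcases h2 with h2 | h2
    · rw [← h2, h, smul_zero]
    · have : cl L b = 0 := by rw [← neg_eq_zero, ← h2, h]
      rw [this, smul_zero]
  rw [← WithTop.LinearOrderedAddCommGroup.coe_sub]
  congr 1
  by_cases h0 : cl L z = 0
  · rw [if_pos h0, if_pos h0, if_neg (h0a h0), if_neg (h0b h0)]
    norm_num
  · rw [if_neg h0, if_neg h0]

/-- The function `F(z) = H(N z) / H(z)`. -/
noncomputable def F (N : ℕ) (z : ℂ) : ℂ := H L a b (N * z) / H L a b z

theorem HN_mero (N : ℕ) (hN : N ≠ 0) : Meromorphic (H L a b ∘ fun z => (N : ℂ) * z) := by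
  intro z
  have hg : AnalyticAt ℂ (fun z : ℂ => (N : ℂ) * z) z := analyticAt_const.mul analyticAt_id
  have hd : deriv (fun z : ℂ => (N : ℂ) * z) z ≠ 0 := by
    rw [deriv_const_mul_field]
    simpa using hN
  exact (meromorphicAt_comp_iff_of_deriv_ne_zero hg hd).2 (H_mero L a b _)

theorem HN_ord (ha : 2 • cl L a ≠ 0) (hb : 2 • cl L b ≠ 0) (N : ℕ) (hN : N ≠ 0) (z : ℂ) :
    meromorphicOrderAt (H L a b ∘ fun z => (N : ℂ) * z) z
      = ((del (cl L a) (cl L b) (N • cl L z) : ℤ) : WithTop ℤ) := by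
  have hg : AnalyticAt ℂ (fun z : ℂ => (N : ℂ) * z) z := analyticAt_const.mul analyticAt_id
  have hd : deriv (fun z : ℂ => (N : ℂ) * z) z ≠ 0 := by
    rw [deriv_const_mul_field]
    simpa using hN
  rw [meromorphicOrderAt_comp_of_deriv_ne_zero hg hd, H_ord L a b ha hb, cl_nmul]

theorem F_mero (N : ℕ) (hN : N ≠ 0) : Meromorphic (F L a b N) :=
  fun z => (HN_mero L a b N hN z).div (H_mero L a b z)

theorem F_per (N : ℕ) {z w : ℂ} (h : cl L z = cl L w) : F L a b N z = F L a b N w := by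
  rw [F, F, H_per L a b h, H_per L a b (z := N * z) (w := N * w)]
  rw [cl_nmul, cl_nmul, h]

open Classical in
/-- The order of `F` at a point of `E`. -/
noncomputable def phi {L : PeriodPair} (A B : Torus L) (N : ℕ) (t : Torus L) : ℤ :=
  (if (N • t = A ∨ N • t = -A) ∧ ¬ (t = A ∨ t = -A) then 1 else 0)
    - (if (N • t = B ∨ N • t = -B) ∧ ¬ (t = B ∨ t = -B) then 1 else 0)

theorem del_phi {A B : Torus L} {N : ℕ} (hA : N • A = A) (hB : N • B = B) (t : Torus L) :
    del A B (N • t) - del A B t = phi A B N t := by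
  have hA' : (t = A ∨ t = -A) → (N • t = A ∨ N • t = -A) := by
    rintro (h | h)
    · left; rw [h, hA]
    · right; rw [h, smul_neg, hA]
  have hB' : (t = B ∨ t = -B) → (N • t = B ∨ N • t = -B) := by
    rintro (h | h)
    · left; rw [h, hB]
    · right; rw [h, smul_neg, hB]
  rw [del, del, phi]
  by_cases h1 : (t = A ∨ t = -A) <;> by_cases h2 : (t = B ∨ t = -B) <;>
  by_cases h3 : (N • t = A ∨ N • t = -A) <;> by_cases h4 : (N • t = B ∨ N • t = -B) <;>
  simp_all

theorem F_ord (ha : 2 • cl L a ≠ 0) (hb : 2 • cl L b ≠ 0) (N : ℕ) (hN : N ≠ 0)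
    (hA : N • cl L a = cl L a) (hB : N • cl L b = cl L b) (z : ℂ) :
    meromorphicOrderAt (F L a b N) z = ((phi (cl L a) (cl L b) N (cl L z) : ℤ) : WithTop ℤ) := by
  have h1 : F L a b N = (H L a b ∘ fun z => (N : ℂ) * z) / H L a b := rfl
  rw [h1, meromorphicOrderAt_div (HN_mero L a b N hN z) (H_mero L a b z), HN_ord L a b ha hb N hN,
    H_ord L a b ha hb, ← WithTop.LinearOrderedAddCommGroup.coe_sub, del_phi L hA hB]

theorem H_ana (hb : 2 • cl L b ≠ 0) {z : ℂ} (hz : cl L z ≠ 0)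
    (h : ¬ (cl L z = cl L b ∨ cl L z = - cl L b)) : AnalyticAt ℂ (H L a b) z :=
  (ana_sub L a (fun h => hz (cl_eq_zero.2 h))).div (ana_sub L b (fun h => hz (cl_eq_zero.2 h)))
    (wp_ne L b hb hz h)

theorem H_ne (ha : 2 • cl L a ≠ 0) (hb : 2 • cl L b ≠ 0) {z : ℂ} (hz : cl L z ≠ 0)
    (h1 : ¬ (cl L z = cl L a ∨ cl L z = - cl L a))
    (h2 : ¬ (cl L z = cl L b ∨ cl L z = - cl L b)) : H L a b z ≠ 0 :=
  div_ne_zero (wp_ne L a ha hz h1) (wp_ne L b hb hz h2)

/-- `F` takes the value `1` at the points of `E[N - 1]` other than `0, ± A, ± B`. -/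
theorem F_one (ha : 2 • cl L a ≠ 0) (hb : 2 • cl L b ≠ 0) (N : ℕ) {z : ℂ} (hz : cl L z ≠ 0)
    (h1 : ¬ (cl L z = cl L a ∨ cl L z = - cl L a))
    (h2 : ¬ (cl L z = cl L b ∨ cl L z = - cl L b)) (hN : N • cl L z = cl L z) :
    0 < meromorphicOrderAt (fun w => F L a b N w - 1) z := by
  have hc : cl L (N * z) = cl L z := by rw [cl_nmul, hN]
  have e1 : AnalyticAt ℂ (H L a b) (N * z) := by
    apply H_ana L a b hb
    · rwa [hc]
    · rwa [hc]
  have e2 : AnalyticAt ℂ (fun w => H L a b (N * w)) z := by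
    have hg : AnalyticAt ℂ (fun z : ℂ => (N : ℂ) * z) z := analyticAt_const.mul analyticAt_id
    exact AnalyticAt.fun_comp e1 hg
  have e3 : AnalyticAt ℂ (F L a b N) z :=
    e2.div (H_ana L a b hb hz h2) (H_ne L a b ha hb hz h1 h2)
  have e4 : F L a b N z - 1 = 0 := by
    rw [F, H_per L a b hc, div_self (H_ne L a b ha hb hz h1 h2), sub_self]
  have e5 : AnalyticAt ℂ (fun w => F L a b N w - 1) z := e3.sub analyticAt_const
  rw [e5.meromorphicOrderAt_eq]
  have e6 : analyticOrderAt (fun w => F L a b N w - 1) z ≠ 0 := by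
    rw [e5.analyticOrderAt_ne_zero]
    exact e4
  rcases h : analyticOrderAt (fun w => F L a b N w - 1) z with _ | n
  · exact WithTop.coe_lt_top _
  · rw [h] at e6
    have : n ≠ 0 := by
      rintro rfl
      exact e6 rfl
    exact WithTop.coe_lt_coe.2 (by exact_mod_cast Nat.pos_of_ne_zero this)

end H

end H4EP
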