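import Mathlib
import Pool.Agent.H4R3.EPa

open Filter Topology

namespace H4EP

variable (L : PeriodPair)

theorem exists_rep_ball (t : Torus L) :
    ∃ z ∈ Metric.closedBall (0:ℂ) (‖L.ω₁‖ + ‖L.ω₂‖), cl L z = t := by
  refine ⟨ZSpan.fract L.basis (rep t), ?_, ?_⟩
  · rw [mem_closedBall_zero_iff]
    have := ZSpan.norm_fract_le L.basis (rep t)
    rwa [Fin.sum_univ_two, L.basis_zero, L.basis_one] at this
  · conv_rhs => rw [← cl_rep t]
    rw [cl_eq, ZSpan.fract_apply]
    have h : ((ZSpan.floor L.basis (rep t) : Submodule.span ℤ (Set.range L.basis)) : ℂ) ∈ L.lattice := by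
      rw [L.lattice_eq_span_range_basis]
      exact (ZSpan.floor L.basis (rep t)).2
    have h2 : rep t - ((ZSpan.floor L.basis (rep t) : Submodule.span ℤ (Set.range L.basis)) : ℂ)
        - rep t = - ((ZSpan.floor L.basis (rep t) : Submodule.span ℤ (Set.range L.basis)) : ℂ) := by
      ring
    rw [h2]
    exact neg_mem h

theorem finite_zeros (h : ℂ → ℂ) (hm : Meromorphic h)
    (hper : ∀ z w, cl L z = cl L w → h z = h w) (z₀ : ℂ) (h0 : meromorphicOrderAt h z₀ ≠ ⊤) :
    {t : Torus L | h (rep t) = 0}.Finite := by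
  have h1 : ∀ z, meromorphicOrderAt h z ≠ ⊤ := fun z =>
    MeromorphicOn.meromorphicOrderAt_ne_top_of_isPreconnected (U := Set.univ) (x := z₀)
      (fun x _ => hm x) isPreconnected_univ (Set.mem_univ _) (Set.mem_univ _) h0
  have h2 := MeromorphicOn.eventually_codiscreteWithin_apply_ne_zero
    (U := Metric.closedBall (0:ℂ) (‖L.ω₁‖ + ‖L.ω₂‖)) (f := h) (fun x _ => hm x) (fun x _ => h1 x)
  have h3 : (Metric.closedBall (0:ℂ) (‖L.ω₁‖ + ‖L.ω₂‖) \ {x | h x ≠ 0}).Finite :=
    (isCompact_closedBall _ _).finite_sdiff_of_mem_codiscreteWithin h2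
  refine (h3.image (cl L)).subset ?_
  intro t ht
  obtain ⟨z, hz, hzt⟩ := exists_rep_ball L t
  refine ⟨z, ⟨hz, ?_⟩, hzt⟩
  rw [Set.mem_ofPred_eq, not_not]
  rw [hper z (rep t) (by rw [hzt, cl_rep])]
  exact ht

theorem tors_finite (n : ℕ) (hn : n ≠ 0) : {t : Torus L | n • t = 0}.Finite := by
  have hn' : (n : ℂ) ≠ 0 := by exact_mod_cast hn
  refine (Set.finite_range (fun ij : Fin n × Fin n =>
    cl L ((((ij.1 : ℕ) : ℂ) * L.ω₁ + ((ij.2 : ℕ) : ℂ) * L.ω₂) / n))).subset ?_
  intro t ht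
  rw [Set.mem_ofPred_eq, ← cl_rep t, ← cl_nmul, cl_eq_zero, PeriodPair.mem_lattice] at ht
  obtain ⟨p, q, h⟩ := ht
  have hpos : (0 : ℤ) < n := by exact_mod_cast Nat.pos_of_ne_zero hn
  have hi0 := Int.emod_nonneg p hpos.ne'
  have hi1 := Int.emod_lt_of_pos p hpos
  have hj0 := Int.emod_nonneg q hpos.ne'
  have hj1 := Int.emod_lt_of_pos q hpos
  obtain ⟨i, hi⟩ := Int.eq_ofNat_of_zero_le hi0
  obtain ⟨j, hj⟩ := Int.eq_ofNat_of_zero_le hj0
  refine ⟨(⟨i, by omega⟩, ⟨j, by omega⟩), ?_⟩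
  rw [← cl_rep t, cl_eq]
  rw [PeriodPair.mem_lattice]
  refine ⟨-(p / n), -(q / n), ?_⟩
  have e1 : (p : ℂ) = (n : ℂ) * ((p / n : ℤ) : ℂ) + (i : ℂ) := by
    have := Int.mul_ediv_add_emod p n
    rw [hi] at this
    exact_mod_cast this.symm
  have e2 : (q : ℂ) = (n : ℂ) * ((q / n : ℤ) : ℂ) + (j : ℂ) := by
    have := Int.mul_ediv_add_emod q n
    rw [hj] at this
    exact_mod_cast this.symm
  rw [e1, e2] at h
  have h' : rep t = (((n : ℂ) * ((p / n : ℤ) : ℂ) + (i : ℂ)) * L.ω₁
      + ((n : ℂ) * ((q / n : ℤ) : ℂ) + (j : ℂ)) * L.ω₂) / n := by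
    rw [h]
    field_simp
  rw [h']
  push_cast
  field_simp
  ring

variable {L}

theorem two_smul_ne {A : Torus L} (h : 4 • A ≠ 0) : 2 • A ≠ 0 := by
  intro h2
  apply h
  have : (4 : ℕ) • A = 2 • (2 • A) := by
    rw [← mul_smul]
    rfl
  rw [this, h2, smul_zero]

theorem ne_neg {A : Torus L} (h : 2 • A ≠ 0) : A ≠ -A := by
  intro h2
  apply h
  rw [two_smul]
  nth_rewrite 2 [h2]
  exact add_neg_cancel A

theorem phi_eq_one {A B : Torus L} {N : ℕ} (hAB : A ≠ B) (hAB' : A ≠ -B) {t : Torus L} :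
    phi A B N t = 1 ↔ ((N • t = A ∨ N • t = -A) ∧ ¬ (t = A ∨ t = -A)) := by
  rw [phi]
  constructor
  · intro h
    by_contra h2
    rw [if_neg h2] at h
    split_ifs at h
    · norm_num at h
    · norm_num at h
  · intro h
    rw [if_pos h, if_neg]
    · norm_num
    · rintro ⟨h3, -⟩
      rcases h.1 with h1 | h1 <;> rcases h3 with h3 | h3
      · exact hAB (h1.symm.trans h3)
      · exact hAB' (h1.symm.trans h3)
      · apply hAB'
        rw [← neg_neg A, ← h1, h3]
      · exact hAB (neg_injective (h1.symm.trans h3))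

theorem nonper {A B : Torus L} {N : ℕ} (hA : N • A = A) (h4 : 4 • A ≠ 0)
    (hAB : A ≠ B) (hAB' : A ≠ -B) {κ : Torus L} (hκ : N • κ = 0) (hκ0 : κ ≠ 0)
    {τ : Torus L} (hτ : ∀ t, phi A B N (t + τ) = phi A B N t) : τ = 0 := by
  have h2 : A ≠ -A := ne_neg (two_smul_ne h4)
  have key : ∀ t, (N • t = A ∨ N • t = -A) → ¬ (t = A ∨ t = -A) →
      ((N • (t + τ) = A ∨ N • (t + τ) = -A) ∧ ¬ ((t + τ) = A ∨ (t + τ) = -A)) := by
    intro t h1 h3
    rw [← phi_eq_one hAB hAB', hτ t, phi_eq_one hAB hAB']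
    exact ⟨h1, h3⟩
  have k1 := key (A + κ) (Or.inl (by rw [smul_add, hA, hκ, add_zero])) (by
    rintro (h | h)
    · exact hκ0 (by simpa using h)
    · apply h2
      have : N • (A + κ) = N • (-A) := by rw [h]
      rwa [smul_add, hA, hκ, add_zero, smul_neg, hA] at this)
  have k2 := key (-A + κ) (Or.inr (by rw [smul_add, smul_neg, hA, hκ, add_zero])) (by
    rintro (h | h)
    · apply h2
      have : N • (-A + κ) = N • A := by rw [h]
      rw [smul_add, smul_neg, hA, hκ, add_zero] at this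
      exact this.symm
    · exact hκ0 (by simpa using h))
  have k1' : A + N • τ = A ∨ A + N • τ = -A := by
    have := k1.1
    rwa [smul_add, smul_add, hA, hκ, add_zero] at this
  have k2' : -A + N • τ = A ∨ -A + N • τ = -A := by
    have := k2.1
    rwa [smul_add, smul_add, smul_neg, hA, hκ, add_zero] at this
  have hN0 : N • τ = 0 := by
    rcases k1' with h | h
    · simpa using h
    rcases k2' with h' | h'
    · exfalso
      apply h4
      have e1 : N • τ = -A - A := by
        have h0 : N • τ = (A + N • τ) - A := by abel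
        rw [h0, h]
      have e2 : N • τ = A + A := by
        have h0 : N • τ = (-A + N • τ) + A := by abel
        rw [h0, h']
      have : (4 : ℕ) • A = (A + A) - (-A - A) := by
        rw [show (4 : ℕ) = 2 + 2 from rfl, add_smul, two_smul]
        abel
      rw [this, ← e1, ← e2, sub_self]
    · simpa using h'
  by_contra hne
  have k3 := key (A - τ) (Or.inl (by rw [smul_sub, hA, hN0, sub_zero])) (by
    rintro (h | h)
    · exact hne (by simpa using h)
    · apply h2
      have : N • (A - τ) = N • (-A) := by rw [h]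
      rwa [smul_sub, hA, hN0, sub_zero, smul_neg, hA] at this)
  rw [sub_add_cancel] at k3
  exact k3.2 (Or.inl rfl)

theorem birat (a b : ℂ) (ha : 4 • cl L a ≠ 0) (hb : 2 • cl L b ≠ 0) (N M : ℕ) (hN : N ≠ 0)
    (hM : M ≠ 0)
    (hA : N • cl L a = cl L a) (hB : N • cl L b = cl L b)
    (hAB : cl L a ≠ cl L b) (hAB' : cl L a ≠ - cl L b) {κ : Torus L} (hκ : N • κ = 0)
    (hκ0 : κ ≠ 0) :
    ∃ T : Set (Torus L), T.Finite ∧ ∀ s t : Torus L, s ∉ T → t ∉ T → M • s = M • t →
      F L a b N (rep s) = F L a b N (rep t) → s = t := by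
  set G := F L a b N with hG
  have hGm : Meromorphic G := F_mero L a b N hN
  have hGp : ∀ z w, cl L z = cl L w → G z = G w := fun z w h => F_per L a b N h
  refine ⟨⋃ τ ∈ {τ : Torus L | M • τ = 0 ∧ τ ≠ 0}, {t | G (rep t + rep τ) - G (rep t) = 0}, ?_, ?_⟩
  · refine Set.Finite.biUnion ((tors_finite L M hM).subset (fun x hx => hx.1)) ?_
    rintro τ ⟨hτ1, hτ2⟩
    have hm1 : Meromorphic (fun z => G (z + rep τ)) := by
      intro z
      exact (meromorphicAt_comp_add_const_iff_meromorphicAt (f := G) (x := z)).2 (hGm _)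
    have hm2 : Meromorphic (fun z => G (z + rep τ) - G z) := fun z => (hm1 z).sub (hGm z)
    by_cases hex : ∃ z₀, meromorphicOrderAt (fun z => G (z + rep τ) - G z) z₀ ≠ ⊤
    · obtain ⟨z₀, hz₀⟩ := hex
      refine finite_zeros L (fun z => G (z + rep τ) - G z) hm2 ?_ z₀ hz₀
      intro z w h
      rw [hGp z w h, hGp (z + rep τ) (w + rep τ) (by rw [cl_add, cl_add, h])]
    · exfalso
      push Not at hex
      apply hτ2
      refine nonper (B := cl L b) hA ha hAB hAB' hκ hκ0 ?_
      intro t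
      have h1 := hex (rep t)
      rw [meromorphicOrderAt_eq_top_iff] at h1
      have h2 : meromorphicOrderAt (fun z => G (z + rep τ)) (rep t) = meromorphicOrderAt G (rep t) := by
        apply meromorphicOrderAt_congr
        filter_upwards [h1] with z hz
        exact sub_eq_zero.1 hz
      have h3 : meromorphicOrderAt (fun z => G (z + rep τ)) (rep t)
          = meromorphicOrderAt G (rep t + rep τ) :=
        meromorphicOrderAt_comp_add_const_eq_meromorphicOrderAt (f := G)
      rw [h3, hG, F_ord L a b (two_smul_ne ha) hb N hN hA hB,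
        F_ord L a b (two_smul_ne ha) hb N hN hA hB, cl_add, cl_rep, cl_rep] at h2
      exact_mod_cast h2
  · intro s t hs ht hst hF
    by_contra hne
    apply ht
    rw [Set.mem_iUnion₂]
    refine ⟨s - t, ⟨by rw [smul_sub, hst, sub_self], sub_ne_zero.2 hne⟩, ?_⟩
    rw [Set.mem_ofPred_eq, sub_eq_zero, ← hF]
    apply hGp
    rw [cl_add, cl_rep, cl_rep, cl_rep]
    abel

end H4EP
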