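import Mathlib
import Pool.Agent.H4R3.EPb

open Filter Topology

namespace H4EP

variable {L : PeriodPair}

open Classical in
noncomputable def pm (K : Finset (Torus L)) (A : Torus L) : Finset (Torus L) :=
  K.image (fun κ => A + κ) ∪ K.image (fun κ => -A + κ)

theorem pm_card_le (K : Finset (Torus L)) (A : Torus L) : (pm K A).card ≤ 2 * K.card := by
  classical
  have h1 := Finset.card_union_le (K.image (fun κ => A + κ)) (K.image (fun κ => -A + κ))
  have h2 := Finset.card_image_le (s := K) (f := (fun κ => A + κ))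
  have h3 := Finset.card_image_le (s := K) (f := (fun κ => -A + κ))
  have h4 : (pm K A).card = (K.image (fun κ => A + κ) ∪ K.image (fun κ => -A + κ)).card := by
    unfold pm
    congr!
  omega

theorem mem_pm {K : Finset (Torus L)} {A t : Torus L} :
    t ∈ pm K A ↔ (∃ κ ∈ K, A + κ = t) ∨ (∃ κ ∈ K, -A + κ = t) := by
  classical
  unfold pm
  rw [Finset.mem_union, Finset.mem_image, Finset.mem_image]

theorem pm_card {K : Finset (Torus L)} {A : Torus L} {N : ℕ} (hK : ∀ κ ∈ K, N • κ = 0)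
    (hA : N • A = A) (h2 : A ≠ -A) : (pm K A).card = 2 * K.card := by
  classical
  have h4 : (pm K A).card = (K.image (fun κ => A + κ) ∪ K.image (fun κ => -A + κ)).card := by
    unfold pm
    congr!
  rw [h4, Finset.card_union_of_disjoint, Finset.card_image_of_injective _ (add_right_injective A),
    Finset.card_image_of_injective _ (add_right_injective (-A)), two_mul]
  rw [Finset.disjoint_left]
  intro t h1 h3
  rw [Finset.mem_image] at h1 h3
  obtain ⟨κ, hκ, rfl⟩ := h1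
  obtain ⟨κ', hκ', h5⟩ := h3
  apply h2
  have : N • (-A + κ') = N • (A + κ) := by rw [h5]
  rw [smul_add, smul_add, smul_neg, hA, hK κ hκ, hK κ' hκ', add_zero, add_zero] at this
  exact this.symm

theorem mem_pm_iff {K : Finset (Torus L)} {A : Torus L} {N : ℕ}
    (hK : ∀ κ, κ ∈ K ↔ N • κ = 0 ∧ κ ≠ 0)
    (hA : N • A = A) (h2 : A ≠ -A) {t : Torus L} :
    t ∈ pm K A ↔ ((N • t = A ∨ N • t = -A) ∧ ¬ (t = A ∨ t = -A)) := by
  rw [mem_pm]
  constructor
  · rintro (⟨κ, hκ, rfl⟩ | ⟨κ, hκ, rfl⟩)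
    · obtain ⟨h3, h4⟩ := (hK κ).1 hκ
      have e : N • (A + κ) = A := by rw [smul_add, hA, h3, add_zero]
      refine ⟨Or.inl e, ?_⟩
      rintro (h | h)
      · exact h4 (by simpa using h)
      · apply h2
        rw [h, smul_neg, hA] at e
        exact e.symm
    · obtain ⟨h3, h4⟩ := (hK κ).1 hκ
      have e : N • (-A + κ) = -A := by rw [smul_add, smul_neg, hA, h3, add_zero]
      refine ⟨Or.inr e, ?_⟩
      rintro (h | h)
      · apply h2
        rw [h, hA] at e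
        exact e
      · exact h4 (by simpa using h)
  · rintro ⟨h1 | h1, h3⟩
    · left
      refine ⟨t - A, (hK _).2 ⟨by rw [smul_sub, h1, hA, sub_self], ?_⟩, by abel⟩
      exact sub_ne_zero.2 (fun h => h3 (Or.inl h))
    · right
      refine ⟨t + A, (hK _).2 ⟨by rw [smul_add, h1, hA, neg_add_cancel], ?_⟩, by abel⟩
      intro h
      exact h3 (Or.inr (eq_neg_of_add_eq_zero_left h))

theorem phi_pm {K : Finset (Torus L)} {A B : Torus L} {N : ℕ}
    (hK : ∀ κ, κ ∈ K ↔ N • κ = 0 ∧ κ ≠ 0)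
    (hA : N • A = A) (hA2 : A ≠ -A) (hB : N • B = B) (hB2 : B ≠ -B)
    (hAB : A ≠ B) (hAB' : A ≠ -B) (t : Torus L) :
    (t ∈ pm K A → phi A B N t = 1) ∧ (t ∈ pm K B → phi A B N t = -1) ∧
      (t ∉ pm K A → t ∉ pm K B → phi A B N t = 0) := by
  have hd : ¬ (t ∈ pm K A ∧ t ∈ pm K B) := by
    rintro ⟨h1, h3⟩
    rw [mem_pm_iff hK hA hA2] at h1
    rw [mem_pm_iff hK hB hB2] at h3
    rcases h1.1 with h1 | h1 <;> rcases h3.1 with h3 | h3
    · exact hAB (h1.symm.trans h3)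
    · exact hAB' (h1.symm.trans h3)
    · apply hAB'
      rw [← neg_neg A, ← h1, h3]
    · exact hAB (neg_injective (h1.symm.trans h3))
  rw [mem_pm_iff hK hA hA2, mem_pm_iff hK hB hB2] at hd ⊢
  rw [phi]
  refine ⟨fun h => ?_, fun h => ?_, fun h h' => ?_⟩
  · rw [if_pos h, if_neg (fun h' => hd ⟨h, h'⟩)]; norm_num
  · rw [if_neg (fun h' => hd ⟨h', h⟩), if_pos h]; norm_num
  · rw [if_neg h, if_neg h']; norm_num

theorem sum_neg_phi_le {K : Finset (Torus L)} {A B : Torus L} {N : ℕ}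
    (hK : ∀ κ, κ ∈ K ↔ N • κ = 0 ∧ κ ≠ 0)
    (hA : N • A = A) (hA2 : A ≠ -A) (hB : N • B = B) (hB2 : B ≠ -B)
    (hAB : A ≠ B) (hAB' : A ≠ -B) :
    ∑ᶠ t : Torus L, (-(phi A B N t)).toNat ≤ 2 * K.card := by
  rw [finsum_eq_sum_of_support_subset (s := pm K B)]
  · refine le_trans ?_ (pm_card_le K B)
    rw [Finset.card_eq_sum_ones]
    apply Finset.sum_le_sum
    intro t ht
    rw [(phi_pm hK hA hA2 hB hB2 hAB hAB' t).2.1 ht]
    norm_num
  · intro t ht
    by_contra h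
    apply ht
    change (-(phi A B N t)).toNat = 0
    by_cases h1 : t ∈ pm K A
    · rw [(phi_pm hK hA hA2 hB hB2 hAB hAB' t).1 h1]
      rfl
    · rw [(phi_pm hK hA hA2 hB hB2 hAB hAB' t).2.2 h1 h]
      rfl

/-- At least `n` points are killed by `n ≥ 1`. -/
theorem tors_ge (L : PeriodPair) (n : ℕ) (hn : n ≠ 0) :
    ∃ U : Finset (Torus L), n ≤ U.card ∧ ∀ t ∈ U, n • t = 0 := by
  classical
  have hn' : (n : ℂ) ≠ 0 := by exact_mod_cast hn
  refine ⟨(Finset.range n).image (fun j => cl L (((j : ℕ) : ℂ) * L.ω₁ / n)), ?_, ?_⟩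
  · rw [Finset.card_image_of_injOn, Finset.card_range]
    intro i hi j hj h
    simp only [Finset.coe_range, Set.mem_Iio] at hi hj
    simp only at h
    rw [cl_eq] at h
    have e : ((i : ℕ) : ℂ) * L.ω₁ / n - ((j : ℕ) : ℂ) * L.ω₁ / n
        = (((((i : ℤ) - j : ℤ) : ℚ) / (n : ℚ) : ℚ) : ℂ) * L.ω₁ + ((0 : ℚ) : ℂ) * L.ω₂ := by
      push_cast
      ring
    rw [e, PeriodPair.mul_ω₁_add_mul_ω₂_mem_lattice] at h
    have h1 := h.1
    have h2 : (n : ℤ) ∣ ((i : ℤ) - j) := by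
      have hq := Rat.coe_int_num_of_den_eq_one h1
      set r := (((((i : ℤ) - j : ℤ) : ℚ) / (n : ℚ) : ℚ)) with hr
      have hn'' : (n : ℚ) ≠ 0 := by exact_mod_cast hn
      have : (((i : ℤ) - j : ℤ) : ℚ) = (n : ℚ) * (r.num : ℚ) := by
        rw [hq, hr]
        field_simp
      exact ⟨r.num, by exact_mod_cast this⟩
    have h3 := Int.eq_zero_of_abs_lt_dvd h2 (by rw [abs_lt]; constructor <;> omega)
    omega
  · intro t ht
    rw [Finset.mem_image] at ht
    obtain ⟨j, -, rfl⟩ := ht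
    rw [← cl_nmul, cl_eq_zero, PeriodPair.mem_lattice]
    refine ⟨j, 0, ?_⟩
    push_cast
    field_simp
    ring

theorem cl_frac_ne (L : PeriodPair) (p q : ℤ) (hq : q ≠ 0) (h : ¬ q ∣ p) :
    cl L ((p : ℂ) * L.ω₁ / q) ≠ 0 := by
  rw [Ne, cl_eq_zero]
  intro h1
  have e : (p : ℂ) * L.ω₁ / q
      = (((p : ℚ) / (q : ℚ) : ℚ) : ℂ) * L.ω₁ + ((0 : ℚ) : ℂ) * L.ω₂ := by
    push_cast
    ring
  rw [e, PeriodPair.mul_ω₁_add_mul_ω₂_mem_lattice] at h1
  apply h
  have hq' := Rat.coe_int_num_of_den_eq_one h1.1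
  set r := ((p : ℚ) / (q : ℚ) : ℚ) with hr
  have hn'' : (q : ℚ) ≠ 0 := by exact_mod_cast hq
  have : (p : ℚ) = (q : ℚ) * (r.num : ℚ) := by
    rw [hq', hr]
    field_simp
  exact ⟨r.num, by exact_mod_cast this⟩

end H4EP
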