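import Mathlib

open MvPolynomial

namespace H4RC

/-- The multiplicity (order of vanishing) of `F` at `w`: the order of the expansion of `F` at `w`,
that is of the polynomial `F (X + w)`. -/
noncomputable def mult (F : MvPolynomial (Fin 3) ℂ) (w : Fin 3 → ℂ) : ℕ∞ :=
  MvPowerSeries.order
    ((MvPolynomial.aeval (fun i => (X i + C (w i) : MvPolynomial (Fin 3) ℂ)) F :
      MvPolynomial (Fin 3) ℂ) : MvPowerSeries (Fin 3) ℂ)

noncomputable def shift (w : Fin 3 → ℂ) : MvPolynomial (Fin 3) ℂ →ₐ[ℂ] MvPolynomial (Fin 3) ℂ :=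
  MvPolynomial.aeval (fun i => (X i + C (w i) : MvPolynomial (Fin 3) ℂ))

theorem mult_prod {ι : Type*} (s : Finset ι) (f : ι → MvPolynomial (Fin 3) ℂ) (w : Fin 3 → ℂ) :
    mult (∏ j ∈ s, f j) w = ∑ j ∈ s, mult (f j) w := by
  unfold mult
  rw [map_prod]
  rw [← MvPowerSeries.order_prod]
  congr 1
  exact map_prod (MvPolynomial.coeToMvPowerSeries.ringHom) _ _

theorem coeff_zero_shift (F : MvPolynomial (Fin 3) ℂ) (w : Fin 3 → ℂ) :
    MvPolynomial.coeff 0 (shift w F) = eval w F := by
  have h : (MvPolynomial.constantCoeff.comp (shift w).toRingHom) = (eval w) := by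
    apply MvPolynomial.ringHom_ext
    · intro r
      simp [shift]
    · intro i
      simp [shift]
  have h2 := congrArg (fun φ => φ F) h
  simpa [MvPolynomial.constantCoeff_eq] using h2

theorem coeff_single_shift (F : MvPolynomial (Fin 3) ℂ) (w : Fin 3 → ℂ) (i : Fin 3) :
    MvPolynomial.coeff (Finsupp.single i 1) (shift w F) = eval w (pderiv i F) := by
  induction F using MvPolynomial.induction_on with
  | C a =>
    have h0 : (0 : Fin 3 →₀ ℕ) ≠ Finsupp.single i 1 := fun h => by
      simpa using DFunLike.congr_fun h i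
    simp [shift, MvPolynomial.coeff_C, h0]
  | add p q hp hq =>
    rw [map_add, MvPolynomial.coeff_add, hp, hq, map_add, map_add]
  | mul_X p j hp =>
    rw [map_mul, Derivation.leibniz, pderiv_X]
    have h1 : shift w (X j) = X j + C (w j) := by simp [shift]
    rw [h1, mul_add, MvPolynomial.coeff_add, mul_comm (shift w p) (C (w j)),
      MvPolynomial.coeff_C_mul, hp, MvPolynomial.coeff_mul_X']
    by_cases h : j = i
    · subst h
      simp [coeff_zero_shift]
    · have h2 : j ∉ (Finsupp.single i 1 : Fin 3 →₀ ℕ).support := by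
        simp
        exact h
      rw [if_neg h2]
      have h3 : (Pi.single i (1 : MvPolynomial (Fin 3) ℂ) : Fin 3 → MvPolynomial (Fin 3) ℂ) j = 0 :=
        Pi.single_eq_of_ne h _
      rw [h3]
      simp

theorem mult_zero_of_ne {F : MvPolynomial (Fin 3) ℂ} {w : Fin 3 → ℂ} (h : eval w F ≠ 0) :
    mult F w = 0 := by
  unfold mult
  by_contra h1
  apply h
  rw [← coeff_zero_shift]
  have h2 := (MvPowerSeries.order_ne_zero_iff_constCoeff_eq_zero).1 h1
  rw [← h2]
  rfl

theorem mult_one_of {F : MvPolynomial (Fin 3) ℂ} {w : Fin 3 → ℂ} (h : eval w F = 0) (i : Fin 3)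
    (h' : eval w (pderiv i F) ≠ 0) : mult F w = 1 := by
  unfold mult
  apply le_antisymm
  · have h1 : MvPowerSeries.coeff (Finsupp.single i 1)
        ((MvPolynomial.aeval (fun i => (X i + C (w i) : MvPolynomial (Fin 3) ℂ)) F :
      MvPolynomial (Fin 3) ℂ) : MvPowerSeries (Fin 3) ℂ) ≠ 0 := by
      rw [MvPolynomial.coeff_coe]
      change MvPolynomial.coeff (Finsupp.single i 1) (shift w F) ≠ 0
      rwa [coeff_single_shift]
    have h2 := MvPowerSeries.order_le h1
    rwa [Finsupp.degree_single] at h2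
  · rw [MvPowerSeries.one_le_order_iff_constCoeff_eq_zero]
    have h1 := coeff_zero_shift F w
    rw [h] at h1
    exact h1

end H4RC
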