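import Mathlib
import Pool.Agent.H4R3.RCa

open MvPolynomial

namespace H4RC

def ea : Fin 8 → ℕ := ![0, 1, 0, 2, 1, 0, 2, 1]
def eb : Fin 8 → ℕ := ![0, 0, 1, 0, 1, 2, 1, 2]

/-- The point `[x : y : 1]` of the plane with affine coordinates `z = (x, y)`. -/
def pt (z : Fin 2 → ℂ) : Fin 3 → ℂ := ![z 0, z 1, 1]

noncomputable def mon (k : Fin 8) : MvPolynomial (Fin 3) ℂ :=
  X 0 ^ ea k * X 1 ^ eb k * X 2 ^ (3 - ea k - eb k)

/-- The cubic form `u X₀³ + v X₁³ + ∑ c_k m_k`. -/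
noncomputable def cub (u v : ℂ) (c : Fin 8 → ℂ) : MvPolynomial (Fin 3) ℂ :=
  C u * X 0 ^ 3 + C v * X 1 ^ 3 + ∑ k, C (c k) * mon k

def mv (z : Fin 2 → ℂ) (k : Fin 8) : ℂ := z 0 ^ ea k * z 1 ^ eb k

noncomputable def ev (u v : ℂ) (c : Fin 8 → ℂ) (z : Fin 2 → ℂ) : ℂ :=
  u * z 0 ^ 3 + v * z 1 ^ 3 + ∑ k, c k * mv z k

noncomputable def dx (u _v : ℂ) (c : Fin 8 → ℂ) (z : Fin 2 → ℂ) : ℂ :=
  3 * u * z 0 ^ 2 + ∑ k, c k * ((ea k : ℂ) * z 0 ^ (ea k - 1) * z 1 ^ eb k)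

noncomputable def dy (_u v : ℂ) (c : Fin 8 → ℂ) (z : Fin 2 → ℂ) : ℂ :=
  3 * v * z 1 ^ 2 + ∑ k, c k * ((eb k : ℂ) * z 0 ^ ea k * z 1 ^ (eb k - 1))

theorem eval_cub (u v : ℂ) (c : Fin 8 → ℂ) (z : Fin 2 → ℂ) :
    eval (pt z) (cub u v c) = ev u v c z := by
  simp [cub, ev, mon, mv, pt]

theorem pderiv_mon_zero (k : Fin 8) (z : Fin 2 → ℂ) :
    eval (pt z) (pderiv 0 (mon k)) = (ea k : ℂ) * z 0 ^ (ea k - 1) * z 1 ^ eb k := by
  have h1 : pderiv 0 (X 1 : MvPolynomial (Fin 3) ℂ) = 0 := pderiv_X_of_ne (by decide)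
  have h2 : pderiv 0 (X 2 : MvPolynomial (Fin 3) ℂ) = 0 := pderiv_X_of_ne (by decide)
  simp [mon, pt, Derivation.leibniz, Derivation.leibniz_pow, h1, h2]
  ring

theorem pderiv_mon_one (k : Fin 8) (z : Fin 2 → ℂ) :
    eval (pt z) (pderiv 1 (mon k)) = (eb k : ℂ) * z 0 ^ ea k * z 1 ^ (eb k - 1) := by
  have h1 : pderiv 1 (X 0 : MvPolynomial (Fin 3) ℂ) = 0 := pderiv_X_of_ne (by decide)
  have h2 : pderiv 1 (X 2 : MvPolynomial (Fin 3) ℂ) = 0 := pderiv_X_of_ne (by decide)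
  simp [mon, pt, Derivation.leibniz, Derivation.leibniz_pow, h1, h2]
  ring

theorem pderiv_cub_zero (u v : ℂ) (c : Fin 8 → ℂ) (z : Fin 2 → ℂ) :
    eval (pt z) (pderiv 0 (cub u v c)) = dx u v c z := by
  have h1 : pderiv 0 (X 1 : MvPolynomial (Fin 3) ℂ) = 0 := pderiv_X_of_ne (by decide)
  rw [cub, map_add, map_add, map_sum, map_add, map_add, map_sum, dx]
  congr 1
  · simp [Derivation.leibniz_pow, h1, pt]
    ring
  · exact Finset.sum_congr rfl (fun k _ => by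
      rw [pderiv_C_mul, map_mul, eval_C, pderiv_mon_zero])

theorem pderiv_cub_one (u v : ℂ) (c : Fin 8 → ℂ) (z : Fin 2 → ℂ) :
    eval (pt z) (pderiv 1 (cub u v c)) = dy u v c z := by
  have h1 : pderiv 1 (X 0 : MvPolynomial (Fin 3) ℂ) = 0 := pderiv_X_of_ne (by decide)
  rw [cub, map_add, map_add, map_sum, map_add, map_add, map_sum, dy]
  congr 1
  · simp [Derivation.leibniz_pow, h1, pt]
    ring
  · exact Finset.sum_congr rfl (fun k _ => by
      rw [pderiv_C_mul, map_mul, eval_C, pderiv_mon_one])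

theorem ea_eb_le (k : Fin 8) : ea k + eb k ≤ 3 := by
  fin_cases k <;> simp [ea, eb]

theorem mon_homogeneous (k : Fin 8) : (mon k).IsHomogeneous 3 := by
  have h : ea k + eb k + (3 - ea k - eb k) = 3 := by
    have := ea_eb_le k
    omega
  have h3 := (((isHomogeneous_X_pow (R := ℂ) (0 : Fin 3) (ea k)).mul
    (isHomogeneous_X_pow (1 : Fin 3) (eb k))).mul
    (isHomogeneous_X_pow (2 : Fin 3) (3 - ea k - eb k)))
  rw [h] at h3
  exact h3

theorem cub_homogeneous (u v : ℂ) (c : Fin 8 → ℂ) : (cub u v c).IsHomogeneous 3 := by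
  unfold cub
  refine ((IsHomogeneous.add ?_ ?_).add ?_)
  · exact (isHomogeneous_X_pow 0 3).C_mul _
  · exact (isHomogeneous_X_pow 1 3).C_mul _
  · exact IsHomogeneous.sum _ _ _ (fun k _ => (mon_homogeneous k).C_mul _)

/-- linear combinations -/
theorem cub_comb (a b u v u' v' : ℂ) (c c' : Fin 8 → ℂ) :
    C a * cub u v c + C b * cub u' v' c' = cub (a * u + b * u') (a * v + b * v')
      (fun k => a * c k + b * c' k) := by
  simp only [cub, mul_add, Finset.mul_sum, map_add, map_mul, add_mul, Finset.sum_add_distrib,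
    mul_assoc]
  ring

theorem ev_ne {u v : ℂ} {c : Fin 8 → ℂ} (h : u ≠ 0 ∨ v ≠ 0) : ¬ (∀ z, ev u v c z = 0) := by
  intro h0
  rcases h with h | h
  · apply h
    have e0 := h0 ![0, 0]
    have e1 := h0 ![1, 0]
    have e2 := h0 ![2, 0]
    have e3 := h0 ![3, 0]
    simp [ev, mv, Fin.sum_univ_eight, ea, eb] at e0 e1 e2 e3
    linear_combination (1/6) * e3 - (1/2) * e2 + (1/2) * e1 - (1/6) * e0
  · apply h
    have e0 := h0 ![0, 0]
    have e1 := h0 ![0, 1]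
    have e2 := h0 ![0, 2]
    have e3 := h0 ![0, 3]
    simp [ev, mv, Fin.sum_univ_eight, ea, eb] at e0 e1 e2 e3
    linear_combination (1/6) * e3 - (1/2) * e2 + (1/2) * e1 - (1/6) * e0

end H4RC
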