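import Mathlib
import Pool.Agent.H4R3.RCb

open MvPolynomial

namespace H4RC

/-- The monomials of degree at most two in the affine coordinates. -/
def idx : ℕ → ℕ → Fin 8
  | 0, 0 => 0
  | 1, 0 => 1
  | 0, 1 => 2
  | 2, 0 => 3
  | 1, 1 => 4
  | 0, 2 => 5
  | _, _ => 0

theorem mv_idx (i j : ℕ) (h : i + j ≤ 2) (z : Fin 2 → ℂ) : mv z (idx i j) = z 0 ^ i * z 1 ^ j := by
  have hi : i ≤ 2 := by omega
  have hj : j ≤ 2 := by omega
  interval_cases i <;> interval_cases j <;> first | omega | simp [mv, idx, ea, eb]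

theorem lowdeg {p : Fin 8 → Fin 2 → ℂ}
    (hM : ∀ δ : Fin 8 → ℂ, (∀ i, ∑ k, δ k * mv (p i) k = 0) → δ = 0)
    {Q : MvPolynomial (Fin 3) ℂ} (hd : Q.totalDegree ≤ 2) (h : ∀ i, eval (pt (p i)) Q = 0)
    (z : Fin 2 → ℂ) : eval (pt z) Q = 0 := by
  classical
  set δ : Fin 8 → ℂ := fun k => ∑ m ∈ Q.support with idx (m 0) (m 1) = k, Q.coeff m with hδ
  have key : ∀ z : Fin 2 → ℂ, eval (pt z) Q = ∑ k, δ k * mv z k := by
    intro z
    rw [MvPolynomial.eval_eq']
    rw [← Finset.sum_fiberwise Q.support (fun m => idx (m 0) (m 1))]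
    apply Finset.sum_congr rfl
    intro k _
    rw [hδ]
    simp only
    rw [Finset.sum_mul]
    apply Finset.sum_congr rfl
    intro m hm
    rw [Finset.mem_filter] at hm
    have h1 : m.degree ≤ 2 := le_trans (MvPolynomial.le_totalDegree hm.1) hd
    rw [Finsupp.degree_eq_sum, Fin.sum_univ_three] at h1
    rw [← hm.2, mv_idx _ _ (by omega), Fin.prod_univ_three]
    simp [pt]
  have h0 : δ = 0 := hM δ (fun i => by rw [← key, h i])
  rw [key z, h0]
  simp

theorem pos_totalDegree {G : MvPolynomial (Fin 3) ℂ} (h0 : G ≠ 0) (hG : ¬ IsUnit G) :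
    1 ≤ G.totalDegree := by
  by_contra h
  have h1 : G.totalDegree = 0 := by omega
  rw [MvPolynomial.totalDegree_eq_zero_iff_eq_C] at h1
  apply hG
  rw [h1]
  apply IsUnit.map
  rw [isUnit_iff_ne_zero]
  intro h2
  apply h0
  rw [h1, h2, C_0]

theorem relPrime_of {p : Fin 8 → Fin 2 → ℂ}
    (hM : ∀ δ : Fin 8 → ℂ, (∀ i, ∑ k, δ k * mv (p i) k = 0) → δ = 0)
    {Q R : MvPolynomial (Fin 3) ℂ} (hQ : Q.totalDegree ≤ 3) (hne : ¬ ∀ z, eval (pt z) Q = 0)
    (hv : ∀ i, eval (pt (p i)) Q = 0)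
    (hJ : ∀ i, eval (pt (p i)) (pderiv 0 Q) * eval (pt (p i)) (pderiv 1 R)
      - eval (pt (p i)) (pderiv 1 Q) * eval (pt (p i)) (pderiv 0 R) ≠ 0) : IsRelPrime Q R := by
  rintro G ⟨A, rfl⟩ ⟨B, rfl⟩
  by_contra hG
  have hne0 : G * A ≠ 0 := by
    rintro h
    apply hne
    intro z
    rw [h, map_zero]
  have hG0 : G ≠ 0 := left_ne_zero_of_mul hne0
  have hA0 : A ≠ 0 := right_ne_zero_of_mul hne0
  have h1 := pos_totalDegree hG0 hG
  rw [MvPolynomial.totalDegree_mul_of_isDomain hG0 hA0] at hQ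
  have hGp : ∀ i, eval (pt (p i)) G ≠ 0 := by
    intro i hi
    apply hJ i
    simp only [Derivation.leibniz, smul_eq_mul, map_add, map_mul, hi]
    ring
  apply hne
  intro z
  rw [map_mul, lowdeg hM (Q := A) (by omega) ?_ z, mul_zero]
  intro i
  have := hv i
  rw [map_mul] at this
  exact (mul_eq_zero.1 this).resolve_left (hGp i)

theorem squarefree_of {p : Fin 8 → Fin 2 → ℂ}
    (hM : ∀ δ : Fin 8 → ℂ, (∀ i, ∑ k, δ k * mv (p i) k = 0) → δ = 0)
    {Q : MvPolynomial (Fin 3) ℂ} (hQ : Q.totalDegree ≤ 3) (hne : ¬ ∀ z, eval (pt z) Q = 0)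
    (hv : ∀ i, eval (pt (p i)) Q = 0)
    (hJ : ∀ i, ¬ (eval (pt (p i)) (pderiv 0 Q) = 0 ∧ eval (pt (p i)) (pderiv 1 Q) = 0)) :
    Squarefree Q := by
  rintro G ⟨A, rfl⟩
  by_contra hG
  have hne0 : G * G * A ≠ 0 := by
    rintro h
    apply hne
    intro z
    rw [h, map_zero]
  have hGG0 : G * G ≠ 0 := left_ne_zero_of_mul hne0
  have hG0 : G ≠ 0 := left_ne_zero_of_mul hGG0
  have hA0 : A ≠ 0 := right_ne_zero_of_mul hne0
  have hGA0 : G * A ≠ 0 := mul_ne_zero hG0 hA0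
  have h1 := pos_totalDegree hG0 hG
  rw [mul_assoc] at hQ
  rw [MvPolynomial.totalDegree_mul_of_isDomain hG0 hGA0] at hQ
  have hGp : ∀ i, eval (pt (p i)) G ≠ 0 := by
    intro i hi
    apply hJ i
    constructor
    · simp only [Derivation.leibniz, smul_eq_mul, map_add, map_mul, hi]
      ring
    · simp only [Derivation.leibniz, smul_eq_mul, map_add, map_mul, hi]
      ring
  apply hne
  intro z
  rw [mul_assoc, map_mul, lowdeg hM (Q := G * A) (by omega) ?_ z, mul_zero]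
  intro i
  have := hv i
  rw [mul_assoc, map_mul] at this
  exact (mul_eq_zero.1 this).resolve_left (hGp i)

theorem squarefree_prod {ι : Type*} (s : Finset ι) (f : ι → MvPolynomial (Fin 3) ℂ)
    (h1 : ∀ i ∈ s, Squarefree (f i))
    (h2 : ∀ i ∈ s, ∀ j ∈ s, i ≠ j → IsRelPrime (f i) (f j)) : Squarefree (∏ i ∈ s, f i) := by
  classical
  induction s using Finset.induction_on with
  | empty => rw [Finset.prod_empty]; exact squarefree_one
  | insert a s ha ih =>
    rw [Finset.prod_insert ha, squarefree_mul_iff]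
    refine ⟨?_, h1 a (Finset.mem_insert_self _ _), ih (fun i hi => h1 i (Finset.mem_insert_of_mem hi))
      (fun i hi j hj => h2 i (Finset.mem_insert_of_mem hi) j (Finset.mem_insert_of_mem hj))⟩
    apply IsRelPrime.prod_right
    intro j hj
    exact h2 a (Finset.mem_insert_self _ _) j (Finset.mem_insert_of_mem hj)
      (fun h => ha (h ▸ hj))

theorem ev_comb (a b u v u' v' : ℂ) (c c' : Fin 8 → ℂ) (z : Fin 2 → ℂ) :
    ev (a * u + b * u') (a * v + b * v') (fun k => a * c k + b * c' k) z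
      = a * ev u v c z + b * ev u' v' c' z := by
  simp only [ev, mul_add, Finset.mul_sum, add_mul, Finset.sum_add_distrib, mul_assoc]
  ring

theorem dx_comb (a b u v u' v' : ℂ) (c c' : Fin 8 → ℂ) (z : Fin 2 → ℂ) :
    dx (a * u + b * u') (a * v + b * v') (fun k => a * c k + b * c' k) z
      = a * dx u v c z + b * dx u' v' c' z := by
  simp only [dx, mul_add, Finset.mul_sum, add_mul, Finset.sum_add_distrib, mul_assoc]
  ring

theorem dy_comb (a b u v u' v' : ℂ) (c c' : Fin 8 → ℂ) (z : Fin 2 → ℂ) :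
    dy (a * u + b * u') (a * v + b * v') (fun k => a * c k + b * c' k) z
      = a * dy u v c z + b * dy u' v' c' z := by
  simp only [dy, mul_add, Finset.mul_sum, add_mul, Finset.sum_add_distrib, mul_assoc]
  ring

end H4RC
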