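import Mathlib
import Pool.Agent.H4R3.RCc

open MvPolynomial

namespace H4RC

/-- Let `p_1, …, p_r` be distinct points of the affine plane `ℂ² ⊂ ℙ²` and `X` the blow-up of `ℙ²`
at these points.  The linear system `|d H - ∑ m_i E_i|` on `X` contains a REDUCED curve `C` which
has a point of multiplicity exactly `t`.  Here `C` is the strict transform of the plane curve
`{F = 0}`, where `F` is a squarefree form of degree `d` with multiplicity exactly `m_i` at `p_i`,
and the point of multiplicity `t` is (the inverse image of) a point `x` other than the `p_i`. -/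
def HasReducedCurve (r d t : ℕ) (m : Fin r → ℕ) (p : Fin r → Fin 2 → ℂ) : Prop :=
  ∃ F : MvPolynomial (Fin 3) ℂ, F.IsHomogeneous d ∧ Squarefree F ∧
    (∀ i, mult F (pt (p i)) = m i) ∧
    ∃ x : Fin 2 → ℂ, (∀ i, x ≠ p i) ∧ mult F (pt x) = t

structure Good {t : ℕ} (p : Fin 8 → Fin 2 → ℂ) (O : Fin 2 → ℂ) (c e : Fin 8 → ℂ)
    (a : Fin t → Fin 2 → ℂ) : Prop where
  det : (Matrix.of (fun i k => mv (p i) k) : Matrix (Fin 8) (Fin 8) ℂ).det ≠ 0
  Jp : ∀ i, dx 1 0 c (p i) * dy 0 1 e (p i) - dy 1 0 c (p i) * dx 0 1 e (p i) ≠ 0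
  JO : dx 1 0 c O * dy 0 1 e O - dy 1 0 c O * dx 0 1 e O ≠ 0
  sep : ∀ j k, j ≠ k → ev 1 0 c (a j) * ev 0 1 e (a k) - ev 1 0 c (a k) * ev 0 1 e (a j) ≠ 0
  smooth : ∀ j, ev 0 1 e (a j) * dx 1 0 c (a j) - ev 1 0 c (a j) * dx 0 1 e (a j) ≠ 0
  ne : ∀ i, O ≠ p i

structure Eqs (p : Fin 8 → Fin 2 → ℂ) (O : Fin 2 → ℂ) (c e : Fin 8 → ℂ) : Prop where
  fp : ∀ i, ev 1 0 c (p i) = 0
  gp : ∀ i, ev 0 1 e (p i) = 0
  fO : ev 1 0 c O = 0
  gO : ev 0 1 e O = 0

theorem Good.inj {t : ℕ} {p : Fin 8 → Fin 2 → ℂ} {O : Fin 2 → ℂ} {c e : Fin 8 → ℂ}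
    {a : Fin t → Fin 2 → ℂ} (hG : Good p O c e a) :
    ∀ δ : Fin 8 → ℂ, (∀ i, ∑ k, δ k * mv (p i) k = 0) → δ = 0 := by
  intro δ h
  by_contra hne
  apply hG.det
  rw [← Matrix.exists_mulVec_eq_zero_iff]
  refine ⟨δ, hne, ?_⟩
  funext i
  rw [Matrix.mulVec, dotProduct]
  simp only [Matrix.of_apply, Pi.zero_apply]
  rw [← h i]
  exact Finset.sum_congr rfl (fun k _ => mul_comm _ _)

/-- The member through `a` of the pencil of cubics generated by `f` and `g`. -/
noncomputable def mem (c e : Fin 8 → ℂ) (α β : ℂ) : MvPolynomial (Fin 3) ℂ :=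
  cub (β * 1 + (-α) * 0) (β * 0 + (-α) * 1) (fun k => β * c k + (-α) * e k)

theorem mem_eval (c e : Fin 8 → ℂ) (α β : ℂ) (z : Fin 2 → ℂ) :
    eval (pt z) (mem c e α β) = β * ev 1 0 c z + (-α) * ev 0 1 e z := by
  rw [mem, eval_cub, ev_comb]

theorem mem_dx (c e : Fin 8 → ℂ) (α β : ℂ) (z : Fin 2 → ℂ) :
    eval (pt z) (pderiv 0 (mem c e α β)) = β * dx 1 0 c z + (-α) * dx 0 1 e z := by
  rw [mem, pderiv_cub_zero, dx_comb]

theorem mem_dy (c e : Fin 8 → ℂ) (α β : ℂ) (z : Fin 2 → ℂ) :
    eval (pt z) (pderiv 1 (mem c e α β)) = β * dy 1 0 c z + (-α) * dy 0 1 e z := by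
  rw [mem, pderiv_cub_one, dy_comb]

theorem mem_homogeneous (c e : Fin 8 → ℂ) (α β : ℂ) : (mem c e α β).IsHomogeneous 3 :=
  cub_homogeneous _ _ _

theorem mem_ne (c e : Fin 8 → ℂ) {α β : ℂ} (h : ¬ (α = 0 ∧ β = 0)) :
    ¬ ∀ z, eval (pt z) (mem c e α β) = 0 := by
  intro h1
  apply ev_ne (u := β * 1 + (-α) * 0) (v := β * 0 + (-α) * 1)
    (c := fun k => β * c k + (-α) * e k) ?_ (fun z => by rw [← eval_cub]; exact h1 z)
  by_contra h2
  push Not at h2
  apply h
  constructor
  · linear_combination -h2.2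
  · linear_combination h2.1

theorem grad_ne {c e : Fin 8 → ℂ} {α β : ℂ} (h : ¬ (α = 0 ∧ β = 0)) {z : Fin 2 → ℂ}
    (hJ : dx 1 0 c z * dy 0 1 e z - dy 1 0 c z * dx 0 1 e z ≠ 0) :
    ¬ (eval (pt z) (pderiv 0 (mem c e α β)) = 0 ∧ eval (pt z) (pderiv 1 (mem c e α β)) = 0) := by
  rintro ⟨h1, h2⟩
  rw [mem_dx] at h1
  rw [mem_dy] at h2
  apply h
  constructor
  · have : α * (dx 1 0 c z * dy 0 1 e z - dy 1 0 c z * dx 0 1 e z) = 0 := by
      linear_combination dy 1 0 c z * h1 - dx 1 0 c z * h2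
    exact (mul_eq_zero.1 this).resolve_right hJ
  · have : β * (dx 1 0 c z * dy 0 1 e z - dy 1 0 c z * dx 0 1 e z) = 0 := by
      linear_combination dy 0 1 e z * h1 - dx 0 1 e z * h2
    exact (mul_eq_zero.1 this).resolve_right hJ

theorem mult_one_grad {F : MvPolynomial (Fin 3) ℂ} {w : Fin 3 → ℂ} (h : eval w F = 0)
    (h' : ¬ (eval w (pderiv 0 F) = 0 ∧ eval w (pderiv 1 F) = 0)) : mult F w = 1 := by
  by_cases h0 : eval w (pderiv 0 F) = 0
  · exact mult_one_of h 1 (fun h1 => h' ⟨h0, h1⟩)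
  · exact mult_one_of h 0 h0

theorem alg {t : ℕ} (ht : 2 ≤ t) {p : Fin 8 → Fin 2 → ℂ} {O : Fin 2 → ℂ} {c e : Fin 8 → ℂ}
    {a : Fin t → Fin 2 → ℂ} (hG : Good p O c e a) (hE : Eqs p O c e)
    (P : Fin (8 + t) → Fin 2 → ℂ) (hP1 : ∀ i, P (Fin.castAdd t i) = p i)
    (hP2 : ∀ j, P (Fin.natAdd 8 j) = a j) :
    Function.Injective P ∧
    HasReducedCurve (8 + t) (3 * t) t (Fin.addCases (fun _ => t) (fun _ => 1)) P := by
  classical
  set α : Fin t → ℂ := fun j => ev 1 0 c (a j) with hα
  set β : Fin t → ℂ := fun j => ev 0 1 e (a j) with hβ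
  have hab : ∀ j, ¬ (α j = 0 ∧ β j = 0) := by
    rintro j ⟨h1, h2⟩
    obtain ⟨k, hk⟩ : ∃ k : Fin t, k ≠ j := by
      by_cases hj : j.val = 0
      · exact ⟨⟨1, by omega⟩, fun h => by
          have := congrArg Fin.val h
          simp at this
          omega⟩
      · exact ⟨⟨0, by omega⟩, fun h => hj (by
          have := congrArg Fin.val h
          simp at this
          omega)⟩
    apply hG.sep k j hk
    change ev 1 0 c (a k) * β j - α j * ev 0 1 e (a k) = 0
    rw [h1, h2]
    ring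
  have hM := hG.inj
  constructor
  · -- the points are distinct
    have pd : ∀ i i', p i = p i' → i = i' := by
      intro i i' h
      by_contra hne
      apply hG.det
      apply Matrix.det_zero_of_row_eq hne
      funext k
      simp only [Matrix.of_apply, h]
    have ad : ∀ j j', a j = a j' → j = j' := by
      intro j j' h
      by_contra hne
      apply hG.sep j j' hne
      rw [h]
      ring
    have pa : ∀ i j, p i ≠ a j := by
      intro i j h
      apply hab j
      constructor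
      · change ev 1 0 c (a j) = 0
        rw [← h, hE.fp]
      · change ev 0 1 e (a j) = 0
        rw [← h, hE.gp]
    intro x y
    refine Fin.addCases (fun i => ?_) (fun j => ?_) x
    · refine Fin.addCases (fun i' => ?_) (fun j' => ?_) y
      · intro h
        rw [hP1, hP1] at h
        rw [pd i i' h]
      · intro h
        rw [hP1, hP2] at h
        exact absurd h (pa i j')
    · refine Fin.addCases (fun i' => ?_) (fun j' => ?_) y
      · intro h
        rw [hP1, hP2] at h
        exact absurd h.symm (pa i' j)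
      · intro h
        rw [hP2, hP2] at h
        rw [ad j j' h]
  · set N : Fin t → MvPolynomial (Fin 3) ℂ := fun j => mem c e (α j) (β j) with hN
    have hNp : ∀ j i, eval (pt (p i)) (N j) = 0 := by
      intro j i
      rw [hN]
      simp only
      rw [mem_eval, hE.fp, hE.gp]
      ring
    have hNO : ∀ j, eval (pt O) (N j) = 0 := by
      intro j
      rw [hN]
      simp only
      rw [mem_eval, hE.fO, hE.gO]
      ring
    have hmO : ∀ j, mult (N j) (pt O) = 1 := fun j => mult_one_grad (hNO j) (grad_ne (hab j) hG.JO)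
    have hmp : ∀ j i, mult (N j) (pt (p i)) = 1 := fun j i =>
      mult_one_grad (hNp j i) (grad_ne (hab j) (hG.Jp i))
    have hma : ∀ j, mult (N j) (pt (a j)) = 1 := by
      intro j
      apply mult_one_of _ 0
      · rw [hN]
        simp only
        rw [mem_dx]
        have := hG.smooth j
        change ev 0 1 e (a j) * dx 1 0 c (a j) + -(ev 1 0 c (a j)) * dx 0 1 e (a j) ≠ 0
        intro h
        apply this
        linear_combination h
      · rw [hN]
        simp only
        rw [mem_eval]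
        change ev 0 1 e (a j) * ev 1 0 c (a j) + -(ev 1 0 c (a j)) * ev 0 1 e (a j) = 0
        ring
    have hma' : ∀ j k, k ≠ j → mult (N k) (pt (a j)) = 0 := by
      intro j k hk
      apply mult_zero_of_ne
      rw [hN]
      simp only
      rw [mem_eval]
      intro h
      apply hG.sep k j hk
      change ev 0 1 e (a k) * ev 1 0 c (a j) + -(ev 1 0 c (a k)) * ev 0 1 e (a j) = 0 at h
      linear_combination -h
    refine ⟨∏ j, N j, ?_, ?_, ?_, O, ?_, ?_⟩
    · have h1 := IsHomogeneous.prod Finset.univ N (fun _ => 3) (fun j _ => mem_homogeneous c e _ _)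
      simp only [Finset.sum_const, Finset.card_univ, Fintype.card_fin, smul_eq_mul] at h1
      rwa [mul_comm] at h1
    · apply squarefree_prod
      · intro j _
        apply squarefree_of hM (mem_homogeneous c e _ _).totalDegree_le (mem_ne c e (hab j)) (hNp j)
        intro i
        exact grad_ne (hab j) (hG.Jp i)
      · intro i _ j _ hij
        apply relPrime_of hM (mem_homogeneous c e _ _).totalDegree_le (mem_ne c e (hab i)) (hNp i)
        intro k
        rw [hN]
        simp only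
        rw [mem_dx, mem_dy, mem_dx, mem_dy]
        have h1 := hG.Jp k
        have h2 : ev 1 0 c (a i) * ev 0 1 e (a j) - ev 1 0 c (a j) * ev 0 1 e (a i) ≠ 0 :=
          hG.sep i j hij
        intro h
        have h3 : (ev 1 0 c (a i) * ev 0 1 e (a j) - ev 1 0 c (a j) * ev 0 1 e (a i)) *
            (dx 1 0 c (p k) * dy 0 1 e (p k) - dy 1 0 c (p k) * dx 0 1 e (p k)) = 0 := by
          rw [hα, hβ] at h
          simp only at h
          linear_combination h
        exact (mul_ne_zero h2 h1) h3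
    · intro x
      rw [mult_prod]
      refine Fin.addCases (fun i => ?_) (fun j => ?_) x
      · rw [hP1, Finset.sum_congr rfl (fun j _ => hmp j i)]
        simp
      · rw [hP2, Finset.sum_eq_single j (fun k _ hk => hma' j k hk)
          (fun h => absurd (Finset.mem_univ _) h), hma]
        simp
    · intro x
      refine Fin.addCases (fun i => ?_) (fun j => ?_) x
      · rw [hP1]
        exact hG.ne i
      · rw [hP2]
        intro h
        apply hab j
        constructor
        · change ev 1 0 c (a j) = 0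
          rw [← h, hE.fO]
        · change ev 0 1 e (a j) = 0
          rw [← h, hE.gO]
    · rw [mult_prod, Finset.sum_congr rfl (fun j _ => hmO j)]
      simp

end H4RC
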