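import Mathlib
import Pool.Agent.H4R3.RCd

open MvPolynomial Filter Topology

namespace H4RC

abbrev E8 : Type := (Fin 8 → Fin 2 → ℂ) × (Fin 2 → ℂ) × (Fin 8 → ℂ) × (Fin 8 → ℂ)

/-- The system of equations. -/
noncomputable def Psi (b : E8) : E8 :=
  (b.1, ![ev 1 0 b.2.2.1 b.2.1, ev 0 1 b.2.2.2 b.2.1], (fun i => ev 1 0 b.2.2.1 (b.1 i)),
    (fun i => ev 0 1 b.2.2.2 (b.1 i)))

def p0 : Fin 8 → Fin 2 → ℂ :=
  ![![-1, -1], ![-1, 0], ![-1, 1], ![0, -1], ![0, 1], ![1, -1], ![1, 0], ![1, 1]]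
def c0 : Fin 8 → ℂ := ![0, -1, 0, 0, 0, 0, 0, 0]
def e0 : Fin 8 → ℂ := ![0, 0, -1, 0, 0, 0, 0, 0]
def b0 : E8 := (p0, ![0, 0], c0, e0)

theorem M0 (δ : Fin 8 → ℂ) (h : ∀ i, ∑ k, δ k * mv (p0 i) k = 0) : δ = 0 := by
  have h0 := h 0
  have h1 := h 1
  have h2 := h 2
  have h3 := h 3
  have h4 := h 4
  have h5 := h 5
  have h6 := h 6
  have h7 := h 7
  simp [Fin.sum_univ_eight, mv, p0, ea, eb] at h0 h1 h2 h3 h4 h5 h6 h7
  funext k
  fin_cases k
  · show δ 0 = 0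
    linear_combination (h3 + h4) / 2 + (h1 + h6) / 2 - (h0 + h2 + h5 + h7) / 4
  · show δ 1 = 0
    linear_combination (h6 - h1) / 2
  · show δ 2 = 0
    linear_combination (h4 - h3) / 2
  · show δ 3 = 0
    linear_combination (h0 + h2 + h5 + h7) / 4 - (h3 + h4) / 2
  · show δ 4 = 0
    linear_combination (h0 - h2 - h5 + h7) / 4
  · show δ 5 = 0
    linear_combination (h0 + h2 + h5 + h7) / 4 - (h1 + h6) / 2
  · show δ 6 = 0
    linear_combination (h7 - h5 - h0 + h2) / 4 - (h4 - h3) / 2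
  · show δ 7 = 0
    linear_combination (h7 + h5 - h0 - h2) / 4 - (h6 - h1) / 2

theorem Psi_contDiff : ContDiff ℂ 1 Psi := by
  unfold Psi ev mv
  refine ContDiff.prodMk (by fun_prop) (ContDiff.prodMk ?_ (ContDiff.prodMk ?_ ?_))
  · rw [contDiff_pi]
    intro i
    fin_cases i
    · simp
      fun_prop
    · simp
      fun_prop
  · fun_prop
  · fun_prop

theorem fderiv_inj (v : E8) (hv : fderiv ℂ Psi b0 v = 0) : v = 0 := by
  have hd : HasFDerivAt Psi (fderiv ℂ Psi b0) b0 :=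
    (Psi_contDiff.differentiable (by norm_num) b0).hasFDerivAt
  have hl : HasDerivAt (fun s : ℂ => Psi (b0 + s • v)) 0 0 := by
    have := hd.hasLineDerivAt v
    rw [hv] at this
    exact this
  obtain ⟨vp, vO, vc, ve⟩ := v
  -- first component
  have hp : vp = 0 := by
    funext i j
    have h1 : HasDerivAt (fun s : ℂ => (Psi (b0 + s • ((vp, vO, vc, ve) : E8))).1 i j) 0 0 := by
      have := (hasDerivAt_pi.1 (hasDerivAt_pi.1 hl.fst i) j)
      exact this
    have h2 : HasDerivAt (fun s : ℂ => p0 i j + s * vp i j) (vp i j) 0 := by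
      have := ((hasDerivAt_id (0 : ℂ)).mul_const (vp i j)).const_add (p0 i j)
      simpa using this
    exact h2.unique h1
  subst hp
  have hc : vc = 0 := by
    apply M0
    intro i
    have h1 : HasDerivAt (fun s : ℂ => (Psi (b0 + s • (((0 : Fin 8 → Fin 2 → ℂ), vO, vc, ve) : E8))).2.2.1 i) 0 0 :=
      hasDerivAt_pi.1 hl.snd.snd.fst i
    have h2 : HasDerivAt (fun s : ℂ => ev 1 0 c0 (p0 i) + s * ∑ k, vc k * mv (p0 i) k)
        (∑ k, vc k * mv (p0 i) k) 0 := by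
      have := ((hasDerivAt_id (0 : ℂ)).mul_const (∑ k, vc k * mv (p0 i) k)).const_add
        (ev 1 0 c0 (p0 i))
      simpa using this
    have h3 : (fun s : ℂ => (Psi (b0 + s • (((0 : Fin 8 → Fin 2 → ℂ), vO, vc, ve) : E8))).2.2.1 i)
        = (fun s : ℂ => ev 1 0 c0 (p0 i) + s * ∑ k, vc k * mv (p0 i) k) := by
      funext s
      simp [Psi, b0, ev, add_mul, Finset.sum_add_distrib, Finset.mul_sum, mul_assoc]
      ring
    rw [h3] at h1
    exact h2.unique h1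
  have he : ve = 0 := by
    apply M0
    intro i
    have h1 : HasDerivAt (fun s : ℂ => (Psi (b0 + s • (((0 : Fin 8 → Fin 2 → ℂ), vO, vc, ve) : E8))).2.2.2 i) 0 0 :=
      hasDerivAt_pi.1 hl.snd.snd.snd i
    have h2 : HasDerivAt (fun s : ℂ => ev 0 1 e0 (p0 i) + s * ∑ k, ve k * mv (p0 i) k)
        (∑ k, ve k * mv (p0 i) k) 0 := by
      have := ((hasDerivAt_id (0 : ℂ)).mul_const (∑ k, ve k * mv (p0 i) k)).const_add
        (ev 0 1 e0 (p0 i))
      simpa using this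
    have h3 : (fun s : ℂ => (Psi (b0 + s • (((0 : Fin 8 → Fin 2 → ℂ), vO, vc, ve) : E8))).2.2.2 i)
        = (fun s : ℂ => ev 0 1 e0 (p0 i) + s * ∑ k, ve k * mv (p0 i) k) := by
      funext s
      simp [Psi, b0, ev, add_mul, Finset.sum_add_distrib, Finset.mul_sum, mul_assoc]
      ring
    rw [h3] at h1
    exact h2.unique h1
  subst hc
  subst he
  have hO0 : vO 0 = 0 := by
    have h1 : HasDerivAt (fun s : ℂ => (Psi (b0 + s • (((0 : Fin 8 → Fin 2 → ℂ), vO, (0 : Fin 8 → ℂ),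
        (0 : Fin 8 → ℂ)) : E8))).2.1 0) 0 0 :=
      hasDerivAt_pi.1 hl.snd.fst 0
    have h3 : (fun s : ℂ => (Psi (b0 + s • (((0 : Fin 8 → Fin 2 → ℂ), vO, (0 : Fin 8 → ℂ),
        (0 : Fin 8 → ℂ)) : E8))).2.1 0)
        = (fun s : ℂ => (s * vO 0) ^ 3 - s * vO 0) := by
      funext s
      simp [Psi, b0, ev, Fin.sum_univ_eight, c0, mv, ea, eb, Matrix.vecHead]
      ring
    rw [h3] at h1
    have h2 : HasDerivAt (fun s : ℂ => (s * vO 0) ^ 3 - s * vO 0) (- vO 0) 0 := by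
      have h5 : HasDerivAt (fun s : ℂ => s * vO 0) (vO 0) 0 := by
        simpa using (hasDerivAt_id (0 : ℂ)).mul_const (vO 0)
      exact ((h5.pow 3).sub h5).congr_deriv (by simp)
    have := h2.unique h1
    simpa using this
  have hO1 : vO 1 = 0 := by
    have h1 : HasDerivAt (fun s : ℂ => (Psi (b0 + s • (((0 : Fin 8 → Fin 2 → ℂ), vO, (0 : Fin 8 → ℂ),
        (0 : Fin 8 → ℂ)) : E8))).2.1 1) 0 0 :=
      hasDerivAt_pi.1 hl.snd.fst 1
    have h3 : (fun s : ℂ => (Psi (b0 + s • (((0 : Fin 8 → Fin 2 → ℂ), vO, (0 : Fin 8 → ℂ),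
        (0 : Fin 8 → ℂ)) : E8))).2.1 1)
        = (fun s : ℂ => (s * vO 1) ^ 3 - s * vO 1) := by
      funext s
      simp [Psi, b0, ev, Fin.sum_univ_eight, e0, mv, ea, eb, Matrix.vecHead, Matrix.vecTail]
      ring
    rw [h3] at h1
    have h2 : HasDerivAt (fun s : ℂ => (s * vO 1) ^ 3 - s * vO 1) (- vO 1) 0 := by
      have h5 : HasDerivAt (fun s : ℂ => s * vO 1) (vO 1) 0 := by
        simpa using (hasDerivAt_id (0 : ℂ)).mul_const (vO 1)
      exact ((h5.pow 3).sub h5).congr_deriv (by simp)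
    have := h2.unique h1
    simpa using this
  have hO : vO = 0 := by
    funext j
    fin_cases j
    · exact hO0
    · exact hO1
  rw [hO]
  rfl

theorem map_nhds_Psi : Filter.map Psi (𝓝 b0) = 𝓝 (Psi b0) := by
  have hs : HasStrictFDerivAt Psi (fderiv ℂ Psi b0) b0 :=
    (Psi_contDiff.contDiffAt (x := b0)).hasStrictFDerivAt (by norm_num)
  apply hs.map_nhds_eq_of_surj
  rw [LinearMap.range_eq_top]
  apply LinearMap.surjective_of_injective
  rw [← LinearMap.ker_eq_bot, LinearMap.ker_eq_bot']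
  intro v hv
  exact fderiv_inj v hv

theorem Psi_b0 : Psi b0 = (p0, 0, 0, 0) := by
  unfold Psi b0
  refine Prod.ext rfl (Prod.ext ?_ (Prod.ext ?_ ?_))
  · funext j
    fin_cases j <;> simp [ev, mv, Fin.sum_univ_eight, c0, e0, ea, eb]
  · funext i
    fin_cases i <;> simp [ev, mv, Fin.sum_univ_eight, c0, p0, ea, eb] <;> norm_num
  · funext i
    fin_cases i <;> simp [ev, mv, Fin.sum_univ_eight, e0, p0, ea, eb] <;> norm_num

end H4RC
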