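import Mathlib
import Pool.Agent.H4R3.RCe

open MvPolynomial Filter Topology

namespace H4RC

def a0 (t : ℕ) : Fin t → Fin 2 → ℂ := fun j => ![2, ((j : ℕ) : ℂ) + 2]

theorem beta_inj (j k : ℕ) (h : ((j : ℂ) + 2) ^ 3 - ((j : ℂ) + 2) = ((k : ℂ) + 2) ^ 3 - ((k : ℂ) + 2)) :
    j = k := by
  have h1 : (((j : ℤ) + 2) ^ 3 - ((j : ℤ) + 2)) = (((k : ℤ) + 2) ^ 3 - ((k : ℤ) + 2)) := by
    exact_mod_cast h
  have h2 : ((j : ℤ) - k) * (((j : ℤ) + 2) ^ 2 + ((j : ℤ) + 2) * ((k : ℤ) + 2) + ((k : ℤ) + 2) ^ 2 - 1)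
      = 0 := by linear_combination h1
  rcases mul_eq_zero.1 h2 with h3 | h3
  · omega
  · exfalso
    have hj : (0 : ℤ) ≤ j := by positivity
    have hk : (0 : ℤ) ≤ k := by positivity
    nlinarith [mul_nonneg hj hk]

theorem beta_ne (j : ℕ) : ((j : ℂ) + 2) ^ 3 - ((j : ℂ) + 2) ≠ 0 := by
  intro h
  have h1 : ((j : ℂ) + 1) * ((j : ℂ) + 2) * ((j : ℂ) + 3) = 0 := by linear_combination h
  have h2 : (((j + 1) * (j + 2) * (j + 3) : ℕ) : ℂ) = 0 := by push_cast; exact h1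
  have h3 : (j + 1) * (j + 2) * (j + 3) = 0 := by exact_mod_cast h2
  have h4 : 0 < (j + 1) * (j + 2) * (j + 3) := by positivity
  omega

theorem good0 (t : ℕ) : Good p0 ![0, 0] c0 e0 (a0 t) where
  det := by
    intro h
    rw [← Matrix.exists_mulVec_eq_zero_iff] at h
    obtain ⟨δ, hδ, h⟩ := h
    apply hδ
    apply M0
    intro i
    have h1 := congrFun h i
    rw [Matrix.mulVec, dotProduct] at h1
    simp only [Matrix.of_apply, Pi.zero_apply] at h1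
    rw [← h1]
    exact Finset.sum_congr rfl (fun k _ => mul_comm _ _)
  Jp := by
    intro i
    fin_cases i <;> simp [dx, dy, Fin.sum_univ_eight, c0, e0, p0, ea, eb] <;> norm_num
  JO := by
    simp [dx, dy, Fin.sum_univ_eight, c0, e0, ea, eb]
  sep := by
    intro j k hjk h
    apply hjk
    simp [ev, mv, Fin.sum_univ_eight, c0, e0, ea, eb, a0] at h
    apply Fin.ext
    apply beta_inj
    linear_combination (-1/6) * h
  smooth := by
    intro j
    simp only [ev, dx, mv, Fin.sum_univ_eight, c0, e0, ea, eb, a0]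
    have := beta_ne (j : ℕ)
    intro h
    apply this
    simp at h
    rcases h with h | h
    · linear_combination h
    · norm_num at h
  ne := by
    intro i h
    have h0 := congrFun h 0
    have h1 := congrFun h 1
    fin_cases i <;> simp [p0] at h0 h1

theorem good_eventually (t : ℕ) :
    ∀ᶠ x : E8 × (Fin t → Fin 2 → ℂ) in 𝓝 (b0, a0 t),
      Good x.1.1 x.1.2.1 x.1.2.2.1 x.1.2.2.2 x.2 := by
  have g0 := good0 t
  have cev : ∀ (u v : ℂ) (C : E8 × (Fin t → Fin 2 → ℂ) → (Fin 8 → ℂ))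
      (Z : E8 × (Fin t → Fin 2 → ℂ) → (Fin 2 → ℂ)), Continuous C → Continuous Z →
      Continuous (fun x => ev u v (C x) (Z x)) := by
    intro u v C Z hC hZ
    unfold ev mv
    fun_prop
  have cdx : ∀ (u v : ℂ) (C : E8 × (Fin t → Fin 2 → ℂ) → (Fin 8 → ℂ))
      (Z : E8 × (Fin t → Fin 2 → ℂ) → (Fin 2 → ℂ)), Continuous C → Continuous Z →
      Continuous (fun x => dx u v (C x) (Z x)) := by
    intro u v C Z hC hZ
    unfold dx
    fun_prop
  have cdy : ∀ (u v : ℂ) (C : E8 × (Fin t → Fin 2 → ℂ) → (Fin 8 → ℂ))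
      (Z : E8 × (Fin t → Fin 2 → ℂ) → (Fin 2 → ℂ)), Continuous C → Continuous Z →
      Continuous (fun x => dy u v (C x) (Z x)) := by
    intro u v C Z hC hZ
    unfold dy
    fun_prop
  have hc : Continuous (fun x : E8 × (Fin t → Fin 2 → ℂ) => x.1.2.2.1) := by fun_prop
  have he : Continuous (fun x : E8 × (Fin t → Fin 2 → ℂ) => x.1.2.2.2) := by fun_prop
  have hO : Continuous (fun x : E8 × (Fin t → Fin 2 → ℂ) => x.1.2.1) := by fun_prop
  have hp : ∀ i, Continuous (fun x : E8 × (Fin t → Fin 2 → ℂ) => x.1.1 i) := by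
    intro i; fun_prop
  have ha : ∀ j, Continuous (fun x : E8 × (Fin t → Fin 2 → ℂ) => x.2 j) := by
    intro i; fun_prop
  have E1 : ∀ᶠ x : E8 × (Fin t → Fin 2 → ℂ) in 𝓝 (b0, a0 t),
      (Matrix.of (fun i k => mv (x.1.1 i) k) : Matrix (Fin 8) (Fin 8) ℂ).det ≠ 0 := by
    have h1 : Continuous (fun x : E8 × (Fin t → Fin 2 → ℂ) =>
        (Matrix.of (fun i k => mv (x.1.1 i) k) : Matrix (Fin 8) (Fin 8) ℂ).det) := by
      apply Continuous.matrix_det
      unfold mv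
      fun_prop
    exact h1.continuousAt.eventually_ne g0.det
  have E2 : ∀ᶠ x : E8 × (Fin t → Fin 2 → ℂ) in 𝓝 (b0, a0 t), ∀ i,
      dx 1 0 x.1.2.2.1 (x.1.1 i) * dy 0 1 x.1.2.2.2 (x.1.1 i)
        - dy 1 0 x.1.2.2.1 (x.1.1 i) * dx 0 1 x.1.2.2.2 (x.1.1 i) ≠ 0 := by
    rw [Filter.eventually_all]
    intro i
    have h1 := ((cdx 1 0 _ _ hc (hp i)).mul (cdy 0 1 _ _ he (hp i))).sub
      ((cdy 1 0 _ _ hc (hp i)).mul (cdx 0 1 _ _ he (hp i)))
    exact h1.continuousAt.eventually_ne (g0.Jp i)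
  have E3 : ∀ᶠ x : E8 × (Fin t → Fin 2 → ℂ) in 𝓝 (b0, a0 t),
      dx 1 0 x.1.2.2.1 x.1.2.1 * dy 0 1 x.1.2.2.2 x.1.2.1
        - dy 1 0 x.1.2.2.1 x.1.2.1 * dx 0 1 x.1.2.2.2 x.1.2.1 ≠ 0 := by
    have h1 := ((cdx 1 0 _ _ hc hO).mul (cdy 0 1 _ _ he hO)).sub
      ((cdy 1 0 _ _ hc hO).mul (cdx 0 1 _ _ he hO))
    exact h1.continuousAt.eventually_ne g0.JO
  have E4 : ∀ᶠ x : E8 × (Fin t → Fin 2 → ℂ) in 𝓝 (b0, a0 t), ∀ j k, j ≠ k →
      ev 1 0 x.1.2.2.1 (x.2 j) * ev 0 1 x.1.2.2.2 (x.2 k)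
        - ev 1 0 x.1.2.2.1 (x.2 k) * ev 0 1 x.1.2.2.2 (x.2 j) ≠ 0 := by
    rw [Filter.eventually_all]
    intro j
    rw [Filter.eventually_all]
    intro k
    by_cases hjk : j = k
    · exact Filter.Eventually.of_forall (fun x h => absurd hjk h)
    · have h1 := ((cev 1 0 _ _ hc (ha j)).mul (cev 0 1 _ _ he (ha k))).sub
        ((cev 1 0 _ _ hc (ha k)).mul (cev 0 1 _ _ he (ha j)))
      filter_upwards [h1.continuousAt.eventually_ne (g0.sep j k hjk)] with x hx _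
      exact hx
  have E5 : ∀ᶠ x : E8 × (Fin t → Fin 2 → ℂ) in 𝓝 (b0, a0 t), ∀ j,
      ev 0 1 x.1.2.2.2 (x.2 j) * dx 1 0 x.1.2.2.1 (x.2 j)
        - ev 1 0 x.1.2.2.1 (x.2 j) * dx 0 1 x.1.2.2.2 (x.2 j) ≠ 0 := by
    rw [Filter.eventually_all]
    intro j
    have h1 := ((cev 0 1 _ _ he (ha j)).mul (cdx 1 0 _ _ hc (ha j))).sub
      ((cev 1 0 _ _ hc (ha j)).mul (cdx 0 1 _ _ he (ha j)))
    exact h1.continuousAt.eventually_ne (g0.smooth j)
  have E6 : ∀ᶠ x : E8 × (Fin t → Fin 2 → ℂ) in 𝓝 (b0, a0 t), ∀ i, x.1.2.1 ≠ x.1.1 i := by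
    rw [Filter.eventually_all]
    intro i
    have hne : (fun x : E8 × (Fin t → Fin 2 → ℂ) => x.1.2.1) (b0, a0 t)
        ≠ (fun x : E8 × (Fin t → Fin 2 → ℂ) => x.1.1 i) (b0, a0 t) := g0.ne i
    exact (isOpen_ne_fun hO (hp i)).mem_nhds hne
  filter_upwards [E1, E2, E3, E4, E5, E6] with x h1 h2 h3 h4 h5 h6
  exact ⟨h1, h2, h3, h4, h5, h6⟩

/-- An open set of configurations. -/
theorem open_configs (t : ℕ) (ht : 2 ≤ t) :
    ∃ P0 : Fin (8 + t) → Fin 2 → ℂ, ∀ᶠ P : Fin (8 + t) → Fin 2 → ℂ in 𝓝 P0,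
      Function.Injective P ∧
      HasReducedCurve (8 + t) (3 * t) t (Fin.addCases (fun _ => t) (fun _ => 1)) P := by
  obtain ⟨V, hV, A, hA, hVA⟩ := mem_nhds_prod_iff.1 (good_eventually t)
  have h1 : Psi '' V ∈ 𝓝 (Psi b0) := by
    rw [← map_nhds_Psi]
    exact Filter.image_mem_map hV
  rw [Psi_b0] at h1
  have hι : Continuous (fun p : Fin 8 → Fin 2 → ℂ => ((p, 0, 0, 0) : E8)) := by fun_prop
  have h2 := hι.continuousAt.preimage_mem_nhds h1
  obtain ⟨P00, hP00⟩ : ∃ P00 : Fin (8 + t) → Fin 2 → ℂ, P00 = Fin.addCases p0 (a0 t) := ⟨_, rfl⟩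
  refine ⟨P00, ?_⟩
  have c1 : Continuous (fun P : Fin (8 + t) → Fin 2 → ℂ => fun i : Fin 8 => P (Fin.castAdd t i)) := by
    fun_prop
  have c2 : Continuous (fun P : Fin (8 + t) → Fin 2 → ℂ => fun j : Fin t => P (Fin.natAdd 8 j)) := by
    fun_prop
  have k1 : (fun i : Fin 8 => P00 (Fin.castAdd t i)) = p0 := by
    funext i
    rw [hP00]
    simp
  have k2 : (fun j : Fin t => P00 (Fin.natAdd 8 j)) = a0 t := by
    funext i
    rw [hP00]
    simp
  have n1 := c1.tendsto P00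
  have n2 := c2.tendsto P00
  change Tendsto _ _ (𝓝 (fun i : Fin 8 => P00 (Fin.castAdd t i))) at n1
  change Tendsto _ _ (𝓝 (fun j : Fin t => P00 (Fin.natAdd 8 j))) at n2
  rw [k1] at n1
  rw [k2] at n2
  filter_upwards [n1 h2, n2 hA] with P hP1 hP2
  obtain ⟨b, hb, hbe⟩ := hP1
  have hgood : Good b.1 b.2.1 b.2.2.1 b.2.2.2 (fun j : Fin t => P (Fin.natAdd 8 j)) :=
    hVA (Set.mk_mem_prod hb hP2)
  have e1 : b.1 = fun i : Fin 8 => P (Fin.castAdd t i) := congrArg Prod.fst hbe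
  have e2 := congrArg (fun x : E8 => x.2.1) hbe
  have e3 := congrArg (fun x : E8 => x.2.2.1) hbe
  have e4 := congrArg (fun x : E8 => x.2.2.2) hbe
  have hE : Eqs b.1 b.2.1 b.2.2.1 b.2.2.2 := by
    refine ⟨fun i => congrFun e3 i, fun i => congrFun e4 i, ?_, ?_⟩
    · exact congrFun e2 0
    · exact congrFun e2 1
  exact alg ht hgood hE P (fun i => (congrFun e1 i).symm) (fun j => rfl)

/-- Baire: a neighbourhood is not contained in a countable union of proper algebraic subsets. -/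
theorem avoid {r : ℕ} {P0 : Fin r → Fin 2 → ℂ} {Q : (Fin r → Fin 2 → ℂ) → Prop}
    (hQ : ∀ᶠ P in 𝓝 P0, Q P) (S : Set (MvPolynomial (Fin r × Fin 2) ℂ)) (hS : S.Countable)
    (h0 : (0 : MvPolynomial (Fin r × Fin 2) ℂ) ∉ S) :
    ∃ P : Fin r → Fin 2 → ℂ, (∀ g ∈ S, eval (fun ij : Fin r × Fin 2 => P ij.1 ij.2) g ≠ 0) ∧ Q P := by
  have hd : Dense (⋂ g ∈ S, {P : Fin r × Fin 2 → ℂ | eval P g ≠ 0}) := by
    apply dense_biInter_of_isOpen
    · intro g _
      exact isOpen_ne_fun (MvPolynomial.continuous_eval g) continuous_const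
    · exact hS
    · intro g hg
      rw [dense_iff_inter_open]
      intro W hW ⟨w, hw⟩
      by_contra hcon
      apply h0
      have hzero : ∀ x ∈ W, eval x g = 0 := by
        intro x hx
        by_contra h
        exact hcon ⟨x, hx, h⟩
      obtain ⟨ε, hε, hball⟩ := Metric.isOpen_iff.1 hW w hw
      have : g = 0 := by
        apply MvPolynomial.funext_set (fun ij => Metric.ball (w ij) ε)
        · intro ij
          exact infinite_of_mem_nhds (w ij) (Metric.ball_mem_nhds _ hε)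
        · intro x hx
          rw [map_zero]
          apply hzero
          apply hball
          rw [ball_pi w hε]
          exact hx
      rw [← this]
      exact hg
  have hcont : Continuous (fun q : Fin r × Fin 2 → ℂ => fun i : Fin r => fun j : Fin 2 => q (i, j)) := by
    fun_prop
  have hn : ∀ᶠ q : Fin r × Fin 2 → ℂ in 𝓝 (fun ij : Fin r × Fin 2 => P0 ij.1 ij.2),
      Q (fun i j => q (i, j)) :=
    hcont.continuousAt.eventually hQ
  obtain ⟨W, hW, hWo, hWm⟩ := mem_nhds_iff.1 hn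
  obtain ⟨q, hqW, hq⟩ := dense_iff_inter_open.1 hd W hWo ⟨_, hWm⟩
  refine ⟨fun i j => q (i, j), ?_, hW hqW⟩
  intro g hg
  have := Set.mem_iInter₂.1 hq g hg
  exact this

end H4RC
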